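import Mathlib

/-!
# Reflection moves: general framework

Configurations are functions `p : ι → M` into an additive commutative group.  A jump of piece `i`
over piece `j` replaces `p i` by `2 • p j - p i`.
-/

set_option autoImplicit false

namespace MPe50cbd

open Finset

variable {ι κ M M' : Type*} [DecidableEq ι] [DecidableEq κ] [AddCommGroup M] [AddCommGroup M']

/-- One jump. -/
def Jump (p q : ι → M) : Prop :=
  ∃ i j : ι, i ≠ j ∧ q = Function.update p i (2 • p j - p i)

/-- `Reach n p q`: the configuration `q` can be obtained from `p` by at most `n` jumps. -/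
inductive Reach : ℕ → (ι → M) → (ι → M) → Prop
  | refl (n : ℕ) (p : ι → M) : Reach n p p
  | step {n : ℕ} {p q r : ι → M} (h : Reach n p q) (h' : Jump q r) : Reach (n + 1) p r

theorem Jump.symm {p q : ι → M} (h : Jump p q) : Jump q p := by
  obtain ⟨i, j, hij, rfl⟩ := h
  refine ⟨i, j, hij, ?_⟩
  funext k
  by_cases hk : k = i
  · subst hk
    simp [Function.update_of_ne (Ne.symm hij)]
  · simp [Function.update_of_ne hk]

theorem Reach.mono {n m : ℕ} {p q : ι → M} (h : Reach n p q) (hnm : n ≤ m) : Reach m p q := by
  induction h generalizing m with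
  | refl n p => exact Reach.refl _ _
  | step h h' ih =>
    obtain ⟨m', rfl⟩ : ∃ m', m = m' + 1 := ⟨m - 1, by omega⟩
    exact Reach.step (ih (by omega)) h'

theorem Reach.of_jump {p q : ι → M} (h : Jump p q) : Reach 1 p q :=
  Reach.step (Reach.refl 0 p) h

theorem Reach.trans {a b : ℕ} {p q r : ι → M} (h₁ : Reach a p q) (h₂ : Reach b q r) :
    Reach (a + b) p r := by
  induction h₂ with
  | refl n q => exact h₁.mono (by omega)
  | step h h' ih => exact Reach.step (ih h₁) h'

theorem Reach.symm {n : ℕ} {p q : ι → M} (h : Reach n p q) : Reach n q p := by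
  induction h with
  | refl n p => exact Reach.refl _ _
  | step h h' ih =>
    have := (Reach.of_jump h'.symm).trans ih
    exact this.mono (by omega)

theorem Reach.map {n : ℕ} {p q : ι → M} (f : M →+ M') (h : Reach n p q) :
    Reach n (fun i => f (p i)) (fun i => f (q i)) := by
  induction h with
  | refl n p => exact Reach.refl _ _
  | step h h' ih =>
    refine Reach.step ih ?_
    obtain ⟨i, j, hij, rfl⟩ := h'
    refine ⟨i, j, hij, ?_⟩
    funext k
    by_cases hk : k = i
    · subst hk
      simp
    · simp [Function.update_of_ne hk]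

/-- Transport along an equivalence of index sets. -/
theorem Reach.equiv {n : ℕ} {p q : ι → M} (e : κ ≃ ι) (h : Reach n p q) :
    Reach n (p ∘ e) (q ∘ e) := by
  induction h with
  | refl n p => exact Reach.refl _ _
  | step h h' ih =>
    refine Reach.step ih ?_
    obtain ⟨i, j, hij, rfl⟩ := h'
    refine ⟨e.symm i, e.symm j, fun h => hij (e.symm.injective h), ?_⟩
    funext k
    by_cases hk : k = e.symm i
    · subst hk
      simp
    · have : e k ≠ i := fun h => hk (by rw [← h]; simp)
      simp [Function.update_of_ne hk, Function.update_of_ne this]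

/-- Moving only the pieces in the range of an injection `e`. -/
theorem Reach.extend {n : ℕ} {p q : κ → M} {e : κ → ι} (he : Function.Injective e)
    (P : ι → M) (h : Reach n p q) :
    Reach n (Function.extend e p P) (Function.extend e q P) := by
  induction h with
  | refl n p => exact Reach.refl _ _
  | @step n p q r h h' ih =>
    refine Reach.step ih ?_
    obtain ⟨i, j, hij, rfl⟩ := h'
    refine ⟨e i, e j, fun h => hij (he h), ?_⟩
    funext k
    by_cases hk : ∃ a, e a = k
    · obtain ⟨a, rfl⟩ := hk
      by_cases ha : a = i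
      · subst ha
        simp [he.extend_apply]
      · have : e a ≠ e i := fun h => ha (he h)
        simp [he.extend_apply, Function.update_of_ne ha, Function.update_of_ne this]
    · have hk' : k ≠ e i := fun h => hk ⟨i, h.symm⟩
      rw [Function.extend_apply' _ _ _ hk, Function.update_of_ne hk',
        Function.extend_apply' _ _ _ hk]

/-- A jump written additively. -/
theorem reach_jump (x : ι → M) {i j : ι} (h : i ≠ j) :
    Reach 1 x (x + Pi.single i (2 • (x j - x i))) := by
  refine Reach.of_jump ⟨i, j, h, ?_⟩
  funext k
  by_cases hk : k = i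
  · subst hk
    simp
    rw [two_nsmul, two_nsmul]
    abel
  · simp [Function.update_of_ne hk, Pi.single_eq_of_ne hk]

theorem reach_diff (x : ι → M) {i j k : ι} (hj : i ≠ j) (hk : i ≠ k) :
    Reach 2 x (x + Pi.single i (2 • (x k - x j))) := by
  have h1 := reach_jump x hj
  have h2 := reach_jump (x + Pi.single i (2 • (x j - x i))) hk
  have h := h1.trans h2
  convert h using 1
  funext l
  by_cases hl : l = i
  · subst hl
    simp [Pi.single_eq_of_ne (Ne.symm hk)]
    simp only [two_nsmul]
    abel
  · simp [Pi.single_eq_of_ne hl]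

theorem reach_diff_nsmul (x : ι → M) {i j k : ι} (hj : i ≠ j) (hk : i ≠ k) (n : ℕ) :
    Reach (2 * n) x (x + Pi.single i ((2 * n) • (x k - x j))) := by
  induction n with
  | zero =>
    simp only [Nat.mul_zero, zero_smul, Pi.single_zero, add_zero]
    exact Reach.refl _ _
  | succ n ih =>
    have h2 := reach_diff (x + Pi.single i ((2 * n) • (x k - x j))) hj hk
    have h := ih.trans h2
    refine (?_ : Reach (2 * n + 2) x _).mono (by omega)
    convert h using 1
    rw [add_assoc, ← Pi.single_add]
    congr 2
    simp only [Pi.add_apply, Pi.single_eq_of_ne (Ne.symm hk), Pi.single_eq_of_ne (Ne.symm hj),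
      add_zero]
    rw [← add_smul]
    rfl

theorem reach_diff_zsmul (x : ι → M) {i j k : ι} (hj : i ≠ j) (hk : i ≠ k) (c : ℤ) :
    Reach (2 * c.natAbs) x (x + Pi.single i ((2 * c) • (x k - x j))) := by
  rcases Int.natAbs_eq c with h | h
  · have := reach_diff_nsmul x hj hk c.natAbs
    convert this using 3
    rw [← natCast_zsmul]
    congr 1
    omega
  · have := reach_diff_nsmul x hk hj c.natAbs
    convert this using 3
    rw [← natCast_zsmul]
    have h2 : ((2 * c.natAbs : ℕ) : ℤ) = -(2 * c) := by omega
    rw [h2, neg_smul, ← smul_neg, neg_sub]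

/-- Adding an even combination of differences of other pieces to one piece. -/
theorem reach_sum {α : Type*} [DecidableEq α] (x : ι → M) {i r : ι} (hr : i ≠ r) (s : Finset α)
    (idx : α → ι) (c : α → ℤ) (h : ∀ a ∈ s, i ≠ idx a) :
    Reach (2 * ∑ a ∈ s, (c a).natAbs) x
      (x + Pi.single i (∑ a ∈ s, (2 * c a) • (x (idx a) - x r))) := by
  induction s using Finset.induction_on with
  | empty =>
    simp only [Finset.sum_empty, Pi.single_zero, add_zero]
    exact Reach.refl _ _
  | insert a s ha ih =>
    have ih' := ih (fun b hb => h b (Finset.mem_insert_of_mem hb))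
    have hai := h a (Finset.mem_insert_self a s)
    have h2 := reach_diff_zsmul (x + Pi.single i (∑ a ∈ s, (2 * c a) • (x (idx a) - x r))) hr hai
      (c a)
    have h3 := ih'.trans h2
    rw [Finset.sum_insert ha, Finset.sum_insert ha]
    refine (?_ : Reach (2 * ∑ a ∈ s, (c a).natAbs + 2 * (c a).natAbs) x _).mono
      (le_of_eq (by ring))
    convert h3 using 1
    rw [add_assoc, ← Pi.single_add]
    congr 2
    simp only [Pi.add_apply, Pi.single_eq_of_ne (Ne.symm hai), Pi.single_eq_of_ne (Ne.symm hr),
      add_zero]
    rw [add_comm]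

/-- Leapfrog of a pair. -/
theorem reach_leap_one (x : ι → M) {a b : ι} (h : a ≠ b) :
    Reach 2 x (x + Pi.single a (2 • (x a - x b)) + Pi.single b (2 • (x a - x b))) := by
  have h1 := reach_jump x h.symm
  have h2 := reach_jump (x + Pi.single b (2 • (x a - x b))) h
  have h3 := h1.trans h2
  convert h3 using 1
  funext l
  by_cases hla : l = a
  · subst hla
    simp only [Pi.add_apply, Pi.single_eq_same, Pi.single_eq_of_ne h, add_zero]
    simp only [two_nsmul]
    abel
  · simp only [Pi.add_apply, Pi.single_eq_of_ne hla, add_zero]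

theorem reach_leap_nsmul (x : ι → M) {a b : ι} (h : a ≠ b) (n : ℕ) :
    Reach (2 * n) x (x + Pi.single a ((2 * n) • (x a - x b)) +
      Pi.single b ((2 * n) • (x a - x b))) := by
  induction n with
  | zero =>
    simp only [Nat.mul_zero, zero_smul, Pi.single_zero, add_zero]
    exact Reach.refl _ _
  | succ n ih =>
    have h2 := reach_leap_one (x + Pi.single a ((2 * n) • (x a - x b)) +
      Pi.single b ((2 * n) • (x a - x b))) h
    have h3 := ih.trans h2
    refine (?_ : Reach (2 * n + 2) x _).mono (by omega)
    convert h3 using 1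
    have e : (x + Pi.single a ((2 * n) • (x a - x b)) +
      Pi.single b ((2 * n) • (x a - x b)) : ι → M) a - (x + Pi.single a ((2 * n) • (x a - x b)) +
      Pi.single b ((2 * n) • (x a - x b)) : ι → M) b = x a - x b := by
      simp only [Pi.add_apply, Pi.single_eq_same, Pi.single_eq_of_ne h,
        Pi.single_eq_of_ne h.symm, add_zero]
      abel
    rw [e]
    have e2 : (2 * (n + 1)) • (x a - x b) = (2 * n) • (x a - x b) + 2 • (x a - x b) := by
      rw [← add_smul]; rfl
    rw [e2, Pi.single_add, Pi.single_add]
    abel

theorem reach_leap_zsmul (x : ι → M) {a b : ι} (h : a ≠ b) (c : ℤ) :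
    Reach (2 * c.natAbs) x (x + Pi.single a ((2 * c) • (x a - x b)) +
      Pi.single b ((2 * c) • (x a - x b))) := by
  rcases Int.natAbs_eq c with h' | h'
  · have := reach_leap_nsmul x h c.natAbs
    have e : (2 * c) • (x a - x b) = (2 * c.natAbs) • (x a - x b) := by
      rw [← natCast_zsmul]
      congr 1
      omega
    rw [e]
    exact this
  · have := reach_leap_nsmul x h.symm c.natAbs
    have e : (2 * c) • (x a - x b) = (2 * c.natAbs) • (x b - x a) := by
      rw [← natCast_zsmul]
      have h2 : ((2 * c.natAbs : ℕ) : ℤ) = -(2 * c) := by omega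
      rw [h2, neg_smul, ← smul_neg, neg_sub]
    rw [e]
    convert this using 1
    abel

end MPe50cbd
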