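import Pool.Agent.Lib.MP_e50cbd_co.Basic

/-!
# Reduction to sub-polygons
-/

set_option autoImplicit false

namespace MPe50cbd

open Finset

/-- Transport along a bijection of index sets. -/
theorem Reach.of_bij {ι κ M : Type*} [DecidableEq ι] [DecidableEq κ] [AddCommGroup M] {n : ℕ}
    {p q : ι → M} {e : κ → ι} (he : Function.Bijective e) (h : Reach n (p ∘ e) (q ∘ e)) :
    Reach n p q := by
  have h2 := h.equiv (Equiv.ofBijective e he).symm
  have h3 : ∀ k, e ((Equiv.ofBijective e he).symm k) = k := fun k =>
    Equiv.ofBijective_apply_symm_apply e he k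
  convert h2 using 1
  · funext k
    simp only [Function.comp_apply, h3]
  · funext k
    simp only [Function.comp_apply, h3]

/-- If the regular `d`-gon can be multiplied by `U`, so can the regular `d * t`-gon. -/
theorem reach_coset {d t : ℕ} (z U : ℂ) (n : ℕ)
    (h : Reach n (fun k : Fin d => (z ^ t) ^ (k : ℕ)) (fun k : Fin d => U * (z ^ t) ^ (k : ℕ))) :
    Reach (n * t) (fun k : Fin (d * t) => z ^ (k : ℕ)) (fun k : Fin (d * t) => U * z ^ (k : ℕ)) := by
  have key : ∀ j ≤ t, Reach (n * j) (fun k : Fin (d * t) => z ^ (k : ℕ))
      (fun k : Fin (d * t) => if (k : ℕ) % t < j then U * z ^ (k : ℕ) else z ^ (k : ℕ)) := by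
    intro j
    induction j with
    | zero =>
      intro _
      simp only [not_lt_zero, if_false]
      exact Reach.refl _ _
    | succ j ih =>
      intro hj
      have h1 := ih (by omega)
      have hlt : ∀ k : Fin d, j + t * (k : ℕ) < d * t := by
        intro k
        have : (k : ℕ) + 1 ≤ d := k.2
        calc j + t * (k : ℕ) < t + t * (k : ℕ) := by omega
          _ = ((k : ℕ) + 1) * t := by ring
          _ ≤ d * t := Nat.mul_le_mul_right _ this
      set e : Fin d → Fin (d * t) := fun k => ⟨j + t * (k : ℕ), hlt k⟩ with he
      have ht : 0 < t := by omega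
      have hinj : Function.Injective e := by
        intro a b hab
        rw [he] at hab
        simp only [Fin.mk.injEq, add_right_inj] at hab
        exact Fin.ext (Nat.eq_of_mul_eq_mul_left ht hab)
      have hmod : ∀ k : Fin d, (j + t * (k : ℕ)) % t = j := by
        intro k
        rw [Nat.add_mul_mod_self_left]
        exact Nat.mod_eq_of_lt (by omega)
      have h2 := h.map (AddMonoidHom.mulLeft (z ^ j))
      have h3 := h2.extend hinj
        (fun k : Fin (d * t) => if (k : ℕ) % t < j then U * z ^ (k : ℕ) else z ^ (k : ℕ))
      have h4 : Reach n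
          (fun k : Fin (d * t) => if (k : ℕ) % t < j then U * z ^ (k : ℕ) else z ^ (k : ℕ))
          (fun k : Fin (d * t) => if (k : ℕ) % t < j + 1 then U * z ^ (k : ℕ) else z ^ (k : ℕ)) := by
        convert h3 using 1
        · funext k
          by_cases hk : ∃ a, e a = k
          · obtain ⟨a, rfl⟩ := hk
            rw [hinj.extend_apply]
            have : ((e a : Fin (d * t)) : ℕ) = j + t * (a : ℕ) := rfl
            rw [this, hmod, if_neg (lt_irrefl _)]
            simp only [AddMonoidHom.coe_mulLeft]
            rw [pow_add, pow_mul]
          · rw [Function.extend_apply' _ _ _ hk]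
        · funext k
          by_cases hk : ∃ a, e a = k
          · obtain ⟨a, rfl⟩ := hk
            rw [hinj.extend_apply]
            have : ((e a : Fin (d * t)) : ℕ) = j + t * (a : ℕ) := rfl
            rw [this, hmod, if_pos (Nat.lt_succ_self _)]
            simp only [AddMonoidHom.coe_mulLeft]
            rw [pow_add, pow_mul]
            ring
          · rw [Function.extend_apply' _ _ _ hk]
            have hne : (k : ℕ) % t ≠ j := by
              intro hkj
              apply hk
              have hdiv : (k : ℕ) / t < d := by
                rw [Nat.div_lt_iff_lt_mul ht]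
                exact k.2
              refine ⟨⟨(k : ℕ) / t, hdiv⟩, ?_⟩
              apply Fin.ext
              simp only [he]
              have := Nat.mod_add_div (k : ℕ) t
              omega
            by_cases hlt' : (k : ℕ) % t < j
            · rw [if_pos hlt', if_pos (by omega)]
            · rw [if_neg hlt', if_neg (by omega)]
      exact (h1.trans h4).mono (le_of_eq (by ring))
  have h5 := key t le_rfl
  rcases Nat.eq_zero_or_pos t with ht | ht
  · subst ht
    convert h5 using 1
    funext k
    exact absurd k.2 (by simp)
  · convert h5 using 1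
    funext k
    rw [if_pos (Nat.mod_lt _ ht)]

end MPe50cbd
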