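import Pool.Agent.Lib.MP_e50cbd_co.Shift
import Pool.Agent.Lib.MP_e50cbd_co.Coset

/-!
# Regular `2m`-gons, `m` odd
-/

set_option autoImplicit false

namespace MPe50cbd

open Finset

/-- The sign of a class. -/
def sg (b : Bool) : ℂ := if b then -1 else 1

theorem sg_not (b : Bool) : sg (!b) = - sg b := by
  cases b <;> simp [sg]

theorem sum_pow_fin {m : ℕ} (η : ℂ) (hη : η ^ m = 1) (hη1 : η ≠ 1) :
    ∑ l : Fin m, η ^ (l : ℕ) = 0 := by
  rw [Fin.sum_univ_eq_sum_range (fun l => η ^ l) m, geom_sum_eq hη1, hη]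
  simp

theorem pow_mod_m {m : ℕ} (η : ℂ) (hη : η ^ m = 1) (e : ℕ) : η ^ e = η ^ (e % m) := by
  conv_lhs => rw [← Nat.mod_add_div e m]
  rw [pow_add, pow_mul, hη, one_pow, mul_one]

/-- If the pieces of the class opposite to `i` (except number `0`) are at `V * η ^ l`, then piece
`i` can be displaced by `4 * V * η ^ e` for every `e`. -/
theorem dis_term {m : ℕ} (hm : 2 ≤ m) (η : ℂ) (hη : η ^ m = 1) (hη1 : η ≠ 1)
    (y : Fin m × Bool → ℂ) (i : Fin m × Bool) (V : ℂ)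
    (hy : ∀ l : Fin m, (l : ℕ) ≠ 0 → y (l, !i.2) = V * η ^ (l : ℕ))
    {r r' : Fin m × Bool} (hr : i ≠ r) (hr' : i ≠ r') (hrr : y r' = - y r) (e : ℕ) :
    Dis y i (6 * m) (4 • (V * η ^ e)) := by
  rw [pow_mod_m η hη e]
  have hlt : e % m < m := Nat.mod_lt _ (by omega)
  have hne : ∀ l : Fin m, i ≠ (l, !i.2) := by
    intro l h
    have : i.2 = !i.2 := congrArg Prod.snd h
    revert this
    cases i.2 <;> simp
  by_cases h0 : e % m = 0
  · rw [h0]
    have h1 := Dis.sum (y := y) (i := i) ((univ : Finset (Fin m)).erase ⟨0, by omega⟩) 6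
      (fun l => -(4 • y (l, !i.2))) (fun l _ => (Dis.four y (hne l) hr hr' hrr).neg)
    have e1 : ∑ l ∈ (univ : Finset (Fin m)).erase ⟨0, by omega⟩, -(4 • y (l, !i.2)) =
        4 • (V * η ^ 0) := by
      have e2 : ∀ l ∈ (univ : Finset (Fin m)).erase ⟨0, by omega⟩, -(4 • y (l, !i.2)) =
          (-4 * V) * η ^ (l : ℕ) := by
        intro l hl
        have hl0 : (l : ℕ) ≠ 0 := by
          intro h
          exact (Finset.ne_of_mem_erase hl) (Fin.ext h)
        rw [hy l hl0]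
        simp only [nsmul_eq_mul]
        push_cast
        ring
      rw [Finset.sum_congr rfl e2, ← Finset.mul_sum]
      have e3 := Finset.add_sum_erase (univ : Finset (Fin m)) (fun l => η ^ (l : ℕ))
        (Finset.mem_univ (⟨0, by omega⟩ : Fin m))
      rw [sum_pow_fin η hη hη1] at e3
      simp only [pow_zero] at e3
      simp only [nsmul_eq_mul, pow_zero]
      push_cast
      linear_combination (-4 * V) * e3
    rw [e1] at h1
    refine h1.mono ?_
    rw [Finset.card_erase_of_mem (Finset.mem_univ _), Finset.card_univ, Fintype.card_fin]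
    calc (m - 1) * 6 ≤ m * 6 := Nat.mul_le_mul_right _ (by omega)
      _ = 6 * m := by ring
  · have h1 := Dis.four y (hne ⟨e % m, hlt⟩) hr hr' hrr
    rw [hy ⟨e % m, hlt⟩ h0] at h1
    exact h1.mono (by omega)

theorem geo_identity {M : ℕ} (a : ℂ) (h : a ^ (2 * M) = a) (h2 : a ≠ 1) (h3 : a ≠ -1) :
    (∑ t ∈ range M, (a ^ 2) ^ t) * (1 + a) = 1 := by
  have ha2 : a ^ 2 ≠ 1 := by
    intro h4
    have : (a - 1) * (a + 1) = 0 := by linear_combination h4
    rcases mul_eq_zero.1 this with h5 | h5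
    · exact h2 (by linear_combination h5)
    · exact h3 (by linear_combination h5)
  rw [geom_sum_eq ha2, ← pow_mul, h]
  have h5 : a ^ 2 - 1 ≠ 0 := sub_ne_zero.2 ha2
  field_simp
  ring

/-- First kind of displacement: everything in the opposite class unscaled. -/
theorem dis_one {M : ℕ} (hM : 3 ≤ M) (η : ℂ) (hη : η ^ (2 * M - 1) = 1) (hη1 : η ≠ 1)
    (hη2 : 1 + η ^ 2 ≠ 0) (hη4 : η ^ 2 ≠ 1)
    (y : Fin (2 * M - 1) × Bool → ℂ) (i : Fin (2 * M - 1) × Bool)
    (hy : ∀ l : Fin (2 * M - 1), (l : ℕ) ≠ 0 → y (l, !i.2) = sg (!i.2) * η ^ (l : ℕ))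
    {r r' : Fin (2 * M - 1) × Bool} (hr : i ≠ r) (hr' : i ≠ r') (hrr : y r' = - y r) :
    Dis y i ((M + M * M) * (6 * (2 * M - 1)))
      (((1 + 2 * (η / (1 + η ^ 2))) ^ 2 - 1) * (sg i.2 * η ^ (i.1 : ℕ))) := by
  have hterm := dis_term (by omega) η hη hη1 y i (sg (!i.2)) hy hr hr' hrr
  have h1 := Dis.sum (y := y) (i := i) (range M) _
    (fun t => 4 • (sg (!i.2) * η ^ ((i.1 : ℕ) + 1 + 4 * t))) (fun t _ => hterm _)
  have h2 := Dis.sum (y := y) (i := i) (range M ×ˢ range M) _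
    (fun t => 4 • (sg (!i.2) * η ^ ((i.1 : ℕ) + 2 + 4 * (t.1 + t.2)))) (fun t _ => hterm _)
  have h3 := (h1.add h2).neg
  rw [Finset.card_product, Finset.card_range] at h3
  have hS := geo_identity (M := M) (η ^ 2) (by
    rw [← pow_mul, show 2 * (2 * M) = (2 * M - 1) + (2 * M - 1) + 2 by omega, pow_add, pow_add,
      hη]
    ring) hη4 (fun h => hη2 (by rw [h]; ring))
  have e4 : (η ^ 2) ^ 2 = η ^ 4 := by ring
  rw [e4] at hS
  set S := ∑ t ∈ range M, (η ^ 4) ^ t with hSdef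
  have e1 : ∑ t ∈ range M, 4 • (sg (!i.2) * η ^ ((i.1 : ℕ) + 1 + 4 * t)) =
      -4 * sg i.2 * η ^ (i.1 : ℕ) * (η * S) := by
    rw [hSdef, Finset.mul_sum, Finset.mul_sum]
    apply Finset.sum_congr rfl
    intro t _
    rw [sg_not, pow_add, pow_add, pow_mul]
    simp only [nsmul_eq_mul]
    push_cast
    ring
  have e2 : ∑ t ∈ range M ×ˢ range M,
      4 • (sg (!i.2) * η ^ ((i.1 : ℕ) + 2 + 4 * (t.1 + t.2))) =
      -4 * sg i.2 * η ^ (i.1 : ℕ) * (η ^ 2 * (S * S)) := by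
    rw [Finset.sum_product, hSdef, Finset.sum_mul_sum, Finset.mul_sum, Finset.mul_sum]
    apply Finset.sum_congr rfl
    intro s _
    rw [Finset.mul_sum, Finset.mul_sum]
    apply Finset.sum_congr rfl
    intro t _
    rw [sg_not, pow_add, pow_add, pow_mul, pow_add]
    simp only [nsmul_eq_mul]
    push_cast
    ring
  rw [e1, e2] at h3
  have e5 : η / (1 + η ^ 2) = η * S := by
    rw [div_eq_iff hη2]
    linear_combination (-η) * hS
  rw [e5]
  convert h3 using 1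
  · ring
  · ring

/-- Second kind of displacement: everything in the opposite class, except possibly number `0`,
scaled. -/
theorem dis_two {M : ℕ} (hM : 3 ≤ M) (η : ℂ) (hη : η ^ (2 * M - 1) = 1) (hη1 : η ≠ 1)
    (hη2 : 1 + η ^ 2 ≠ 0) (hη3 : 1 + η ≠ 0)
    (y : Fin (2 * M - 1) × Bool → ℂ) (i : Fin (2 * M - 1) × Bool)
    (hy : ∀ l : Fin (2 * M - 1), (l : ℕ) ≠ 0 →
      y (l, !i.2) = (1 + 2 * (η / (1 + η ^ 2))) ^ 2 * (sg (!i.2) * η ^ (l : ℕ)))
    {r r' : Fin (2 * M - 1) × Bool} (hr : i ≠ r) (hr' : i ≠ r') (hrr : y r' = - y r) :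
    Dis y i ((M * M + (M * M) * (M * M)) * (6 * (2 * M - 1)))
      (((1 + 2 * (η / (1 + η ^ 2))) ^ 2 - 1) * (sg i.2 * η ^ (i.1 : ℕ))) := by
  set U : ℂ := (1 + 2 * (η / (1 + η ^ 2))) ^ 2 with hU
  have hterm := dis_term (by omega) η hη hη1 y i (U * sg (!i.2))
    (fun l hl => by rw [hy l hl]; ring) hr hr' hrr
  have h1 := Dis.sum (y := y) (i := i) (range M ×ˢ range M) _
    (fun t => 4 • (U * sg (!i.2) * η ^ ((i.1 : ℕ) + 1 + 2 * (t.1 + t.2)))) (fun t _ => hterm _)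
  have h2 := Dis.sum (y := y) (i := i) ((range M ×ˢ range M) ×ˢ (range M ×ˢ range M)) _
    (fun t => 4 • (U * sg (!i.2) *
      η ^ ((i.1 : ℕ) + 2 + 2 * ((t.1.1 + t.1.2) + (t.2.1 + t.2.2))))) (fun t _ => hterm _)
  have h3 := h1.neg.add h2
  rw [Finset.card_product, Finset.card_product, Finset.card_product, Finset.card_range] at h3
  have hS := geo_identity (M := M) η (by
    rw [show 2 * M = (2 * M - 1) + 1 by omega, pow_add, hη]
    ring) hη1 (fun h => hη3 (by rw [h]; ring))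
  set S := ∑ t ∈ range M, (η ^ 2) ^ t with hSdef
  have e0 : ∀ a : ℕ, ∑ t ∈ range M ×ˢ range M, η ^ (a + 2 * (t.1 + t.2)) = η ^ a * (S * S) := by
    intro a
    rw [Finset.sum_product, hSdef, Finset.sum_mul_sum, Finset.mul_sum]
    apply Finset.sum_congr rfl
    intro s _
    rw [Finset.mul_sum]
    apply Finset.sum_congr rfl
    intro t _
    rw [pow_add, pow_mul, pow_add]
  have e1 : ∑ t ∈ range M ×ˢ range M, 4 • (U * sg (!i.2) * η ^ ((i.1 : ℕ) + 1 + 2 * (t.1 + t.2))) =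
      -4 * U * sg i.2 * η ^ (i.1 : ℕ) * (η * (S * S)) := by
    have : ∀ t ∈ range M ×ˢ range M, 4 • (U * sg (!i.2) * η ^ ((i.1 : ℕ) + 1 + 2 * (t.1 + t.2))) =
        (-4 * U * sg i.2) * η ^ ((i.1 : ℕ) + 1 + 2 * (t.1 + t.2)) := by
      intro t _
      rw [sg_not]
      simp only [nsmul_eq_mul]
      push_cast
      ring
    rw [Finset.sum_congr rfl this, ← Finset.mul_sum, e0]
    ring
  have e2 : ∑ t ∈ (range M ×ˢ range M) ×ˢ (range M ×ˢ range M), 4 • (U * sg (!i.2) *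
      η ^ ((i.1 : ℕ) + 2 + 2 * ((t.1.1 + t.1.2) + (t.2.1 + t.2.2)))) =
      -4 * U * sg i.2 * η ^ (i.1 : ℕ) * (η ^ 2 * (S * S) ^ 2) := by
    have : ∀ t ∈ (range M ×ˢ range M) ×ˢ (range M ×ˢ range M), 4 • (U * sg (!i.2) *
        η ^ ((i.1 : ℕ) + 2 + 2 * ((t.1.1 + t.1.2) + (t.2.1 + t.2.2)))) =
        (-4 * U * sg i.2) * (η ^ ((i.1 : ℕ) + 2 + 2 * (t.1.1 + t.1.2)) *
          η ^ (0 + 2 * (t.2.1 + t.2.2))) := by
      intro t _
      rw [sg_not, ← pow_add]
      simp only [nsmul_eq_mul]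
      push_cast
      ring
    rw [Finset.sum_congr rfl this, ← Finset.mul_sum, Finset.sum_product]
    dsimp only
    rw [← Finset.sum_mul_sum, e0, e0]
    ring
  rw [e1, e2] at h3
  have hw : η / (1 + η ^ 2) * (1 + η ^ 2) = η := div_mul_cancel₀ _ hη2
  have key : (1 + 2 * (η / (1 + η ^ 2))) * (1 - 2 * (η * (S * S))) = 1 := by
    have hS2 : η * (S * S) * (1 + η) ^ 2 = η := by
      linear_combination (η * (S * (1 + η) + 1)) * hS
    have hc : (1 + η ^ 2) * (1 + η) ^ 2 ≠ 0 := mul_ne_zero hη2 (pow_ne_zero _ hη3)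
    apply mul_left_cancel₀ hc
    set w := η / (1 + η ^ 2)
    set v := η * (S * S)
    linear_combination (2 * (1 + η) ^ 2 - 4 * v * (1 + η) ^ 2) * hw +
      (-2 * (1 + η ^ 2) - 4 * η) * hS2
  convert h3 using 1
  · ring
  · have key2 : U * (1 - 2 * (η * (S * S))) ^ 2 = 1 := by
      rw [hU]
      linear_combination ((1 + 2 * (η / (1 + η ^ 2))) * (1 - 2 * (η * (S * S))) + 1) * key
    linear_combination (sg i.2 * η ^ (i.1 : ℕ)) * key2

end MPe50cbd
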