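import Pool.Agent.Lib.MP_e50cbd_co.Even2

/-!
# Regular `2m`-gons, `m` odd: the complete transformation
-/

set_option autoImplicit false

namespace MPe50cbd

open Finset

/-- The cost of displacing one piece. -/
def cst (M : ℕ) : ℕ := (M * M + (M * M) * (M * M)) * (6 * (2 * M - 1))

theorem cst_ge (M : ℕ) : (M + M * M) * (6 * (2 * M - 1)) ≤ cst M := by
  unfold cst
  apply Nat.mul_le_mul_right
  have h1 : M ≤ (M * M) * (M * M) := by
    rcases Nat.eq_zero_or_pos M with h | h
    · subst h; simp
    · have h2 : 1 ≤ M * M := Nat.mul_pos h h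
      calc M = M * 1 := by ring
        _ ≤ M * M := Nat.mul_le_mul_left _ h
        _ = 1 * (M * M) := by ring
        _ ≤ (M * M) * (M * M) := Nat.mul_le_mul_right _ h2
  omega

theorem even2_reach {M : ℕ} (hM : 3 ≤ M) (η : ℂ) (hη : η ^ (2 * M - 1) = 1) (hη1 : η ≠ 1)
    (hη2 : 1 + η ^ 2 ≠ 0) (hη3 : 1 + η ≠ 0) (hη4 : η ^ 2 ≠ 1) :
    Reach ((2 * (2 * M - 1) + 2) * cst M) (fun i : Fin (2 * M - 1) × Bool => sg i.2 * η ^ (i.1 : ℕ))
      (fun i => (1 + 2 * (η / (1 + η ^ 2))) ^ 2 * (sg i.2 * η ^ (i.1 : ℕ))) := by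
  set U : ℂ := (1 + 2 * (η / (1 + η ^ 2))) ^ 2 with hU
  set x : Fin (2 * M - 1) × Bool → ℂ := fun i => sg i.2 * η ^ (i.1 : ℕ) with hx
  set z : Fin (2 * M - 1) × Bool → ℂ := fun i => U * (sg i.2 * η ^ (i.1 : ℕ)) with hz
  have hzx : ∀ i, z i - x i = (U - 1) * (sg i.2 * η ^ (i.1 : ℕ)) := by
    intro i
    simp only [hz, hx]
    ring
  have hpos : 0 < 2 * M - 1 := by omega
  have hpos1 : 1 < 2 * M - 1 := by omega
  set o : Fin (2 * M - 1) := ⟨0, hpos⟩ with ho
  set e : Fin (2 * M - 1) := ⟨1, hpos1⟩ with he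
  have hoe : o ≠ e := by
    intro h
    have := congrArg Fin.val h
    simp [ho, he] at this
  have hval : ∀ l : Fin (2 * M - 1), (l : ℕ) ≠ 0 ↔ l ≠ o := by
    intro l
    constructor
    · rintro h rfl
      exact h rfl
    · intro h h'
      exact h (Fin.ext h')
  set B1 : Finset (Fin (2 * M - 1) × Bool) := (univ.erase o) ×ˢ {false} with hB1
  set B2 : Finset (Fin (2 * M - 1) × Bool) := (univ.erase o) ×ˢ {true} with hB2
  have m1 : ∀ i, i ∈ B1 ↔ i.1 ≠ o ∧ i.2 = false := by
    intro i
    rw [hB1, Finset.mem_product, Finset.mem_erase, Finset.mem_singleton]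
    simp
  have m2 : ∀ i, i ∈ B2 ↔ i.1 ≠ o ∧ i.2 = true := by
    intro i
    rw [hB2, Finset.mem_product, Finset.mem_erase, Finset.mem_singleton]
    simp
  -- first pass
  have p1 := reach_pass x z (cst M) ∅ B1 (by
    intro B' hB' i hi hiB'
    rw [m1] at hi
    refine ⟨by simp, ?_⟩
    rw [hzx]
    refine (dis_one hM η hη hη1 hη2 hη4 _ i ?_ (r := (o, false)) (r' := (o, true)) ?_ ?_ ?_).mono
      (cst_ge M)
    · intro l _
      have : (l, !i.2) ∉ B' := by
        intro h
        have := (m1 _).1 (hB' h)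
        simp [hi.2] at this
      simp only [Finset.empty_union]
      rw [if_neg this]
    · intro h
      exact hi.1 (congrArg Prod.fst h)
    · intro h
      exact hi.1 (congrArg Prod.fst h)
    · have h1 : (o, false) ∉ B' := fun h => ((m1 _).1 (hB' h)).1 rfl
      have h2 : (o, true) ∉ B' := fun h => ((m1 _).1 (hB' h)).1 rfl
      simp only [Finset.empty_union]
      rw [if_neg h1, if_neg h2]
      simp [hx, sg])
  -- second pass
  have p2 := reach_pass x z (cst M) B1 B2 (by
    intro B' hB' i hi hiB'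
    rw [m2] at hi
    refine ⟨by rw [m1]; simp [hi.2], ?_⟩
    rw [hzx]
    refine dis_two hM η hη hη1 hη2 hη3 _ i ?_ (r := (o, false)) (r' := (o, true)) ?_ ?_ ?_
    · intro l hl
      have : (l, !i.2) ∈ B1 ∪ B' := by
        rw [Finset.mem_union, m1]
        left
        exact ⟨(hval l).1 hl, by simp [hi.2]⟩
      rw [if_pos this]
    · intro h
      exact hi.1 (congrArg Prod.fst h)
    · intro h
      exact hi.1 (congrArg Prod.fst h)
    · have h1 : (o, false) ∉ B1 ∪ B' := by
        rw [Finset.mem_union, m1]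
        rintro (h | h)
        · exact h.1 rfl
        · exact ((m2 _).1 (hB' h)).1 rfl
      have h2 : (o, true) ∉ B1 ∪ B' := by
        rw [Finset.mem_union, m1]
        rintro (h | h)
        · exact h.1 rfl
        · exact ((m2 _).1 (hB' h)).1 rfl
      rw [if_neg h1, if_neg h2]
      simp [hx, sg])
  -- third step
  have p3 := reach_pass x z (cst M) (B1 ∪ B2) {(o, false)} (by
    intro B' hB' i hi hiB'
    rw [Finset.mem_singleton] at hi
    subst hi
    refine ⟨by rw [Finset.mem_union, m1, m2]; simp, ?_⟩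
    have hB0 : B' = ∅ := by
      rcases Finset.subset_singleton_iff.1 hB' with h | h
      · exact h
      · exfalso
        apply hiB'
        rw [h]
        simp
    subst hB0
    rw [hzx, Finset.union_empty]
    refine dis_two hM η hη hη1 hη2 hη3 _ _ ?_ (r := (e, false)) (r' := (e, true)) ?_ ?_ ?_
    · intro l hl
      have : (l, !(false : Bool)) ∈ B1 ∪ B2 := by
        rw [Finset.mem_union, m2]
        right
        exact ⟨(hval l).1 hl, by simp⟩
      rw [if_pos this]
    · intro h
      exact hoe (congrArg Prod.fst h)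
    · intro h
      exact hoe (congrArg Prod.fst h)
    · have h1 : (e, false) ∈ B1 ∪ B2 := by
        rw [Finset.mem_union, m1]
        exact Or.inl ⟨hoe.symm, rfl⟩
      have h2 : (e, true) ∈ B1 ∪ B2 := by
        rw [Finset.mem_union, m2]
        exact Or.inr ⟨hoe.symm, rfl⟩
      rw [if_pos h1, if_pos h2]
      simp [hz, sg])
  -- fourth step
  have p4 := reach_pass x z (cst M) (B1 ∪ B2 ∪ {(o, false)}) {(o, true)} (by
    intro B' hB' i hi hiB'
    rw [Finset.mem_singleton] at hi
    subst hi
    refine ⟨by rw [Finset.mem_union, Finset.mem_union, m1, m2]; simp, ?_⟩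
    have hB0 : B' = ∅ := by
      rcases Finset.subset_singleton_iff.1 hB' with h | h
      · exact h
      · exfalso
        apply hiB'
        rw [h]
        simp
    subst hB0
    rw [hzx, Finset.union_empty]
    refine dis_two hM η hη hη1 hη2 hη3 _ _ ?_ (r := (e, false)) (r' := (e, true)) ?_ ?_ ?_
    · intro l hl
      have : (l, !(true : Bool)) ∈ B1 ∪ B2 ∪ {(o, false)} := by
        rw [Finset.mem_union, Finset.mem_union, m1]
        left
        left
        exact ⟨(hval l).1 hl, by simp⟩
      rw [if_pos this]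
    · intro h
      exact hoe (congrArg Prod.fst h)
    · intro h
      exact hoe (congrArg Prod.fst h)
    · have h1 : (e, false) ∈ B1 ∪ B2 ∪ {(o, false)} := by
        rw [Finset.mem_union, Finset.mem_union, m1]
        exact Or.inl (Or.inl ⟨hoe.symm, rfl⟩)
      have h2 : (e, true) ∈ B1 ∪ B2 ∪ {(o, false)} := by
        rw [Finset.mem_union, Finset.mem_union, m2]
        exact Or.inl (Or.inr ⟨hoe.symm, rfl⟩)
      rw [if_pos h1, if_pos h2]
      simp [hz, sg])
  rw [Finset.empty_union] at p1
  have h := ((p1.trans p2).trans p3).trans p4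
  have c1 : B1.card ≤ 2 * M - 1 := by
    rw [hB1, Finset.card_product]
    simp
  have c2 : B2.card ≤ 2 * M - 1 := by
    rw [hB2, Finset.card_product]
    simp
  have hstart : (fun k => if k ∈ (∅ : Finset (Fin (2 * M - 1) × Bool)) then z k else x k) = x := by
    funext k
    simp
  have hend : (fun k => if k ∈ B1 ∪ B2 ∪ {(o, false)} ∪ {(o, true)} then z k else x k) = z := by
    funext k
    rw [if_pos]
    rw [Finset.mem_union, Finset.mem_union, Finset.mem_union, m1, m2]
    rcases k with ⟨l, b⟩
    by_cases hl : l = o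
    · subst hl
      cases b
      · exact Or.inl (Or.inr (by simp))
      · exact Or.inr (by simp)
    · cases b
      · exact Or.inl (Or.inl (Or.inl ⟨hl, rfl⟩))
      · exact Or.inl (Or.inl (Or.inr ⟨hl, rfl⟩))
  rw [hstart, hend] at h
  refine h.mono ?_
  simp only [Finset.card_singleton]
  calc B1.card * cst M + B2.card * cst M + 1 * cst M + 1 * cst M
      ≤ (2 * M - 1) * cst M + (2 * M - 1) * cst M + 1 * cst M + 1 * cst M := by gcongr
    _ = (2 * (2 * M - 1) + 2) * cst M := by ring

end MPe50cbd
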