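import Pool.Agent.Lib.MP_e50cbd_co.Coset

/-!
# The regular octagon and the regular dodecagon
-/

set_option autoImplicit false

namespace MPe50cbd

open Finset

/-- Integer vectors of length four. -/
abbrev V4 : Type := ℤ × ℤ × ℤ × ℤ

/-- Reflection of `b` in `a`. -/
def jmp (a b : V4) : V4 :=
  (2 * a.1 - b.1, 2 * a.2.1 - b.2.1, 2 * a.2.2.1 - b.2.2.1, 2 * a.2.2.2 - b.2.2.2)

theorem jmp_eq (a b : V4) : jmp a b = 2 • a - b := by
  obtain ⟨a1, a2, a3, a4⟩ := a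
  obtain ⟨b1, b2, b3, b4⟩ := b
  simp [jmp]

/-- Check of a list of jumps. -/
def stepsOk : List V4 → List (ℕ × ℕ × V4) → Bool
  | _, [] => true
  | p, (i, j, v) :: rest =>
    decide (i ≠ j) && decide (i < p.length) && decide (j < p.length) &&
      decide (v = jmp (p.getD j 0) (p.getD i 0)) && stepsOk (p.set i v) rest

/-- The final configuration. -/
def runS : List V4 → List (ℕ × ℕ × V4) → List V4
  | p, [] => p
  | p, (i, _, v) :: rest => runS (p.set i v) rest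

theorem reach_steps (d : ℕ) : ∀ (s : List (ℕ × ℕ × V4)) (p : List V4), p.length = d →
    stepsOk p s = true →
    Reach s.length (fun k : Fin d => p.getD k 0) (fun k : Fin d => (runS p s).getD k 0) := by
  intro s
  induction s with
  | nil =>
    intro p _ _
    exact Reach.refl _ _
  | cons a s ih =>
    obtain ⟨i, j, v⟩ := a
    intro p hp hok
    simp only [stepsOk, Bool.and_eq_true, decide_eq_true_eq] at hok
    obtain ⟨⟨⟨⟨h1, h2⟩, h3⟩, h4⟩, h5⟩ := hok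
    have h6 := ih (p.set i v) (by simp [hp]) h5
    have h7 : Jump (fun k : Fin d => p.getD k 0) (fun k : Fin d => (p.set i v).getD k 0) := by
      refine ⟨⟨i, by omega⟩, ⟨j, by omega⟩, ?_, ?_⟩
      · intro h
        exact h1 (by simpa using h)
      · funext k
        by_cases hk : k = ⟨i, by omega⟩
        · subst hk
          rw [Function.update_self, h4, jmp_eq]
          simp [h2]
        · rw [Function.update_of_ne hk]
          have : i ≠ (k : ℕ) := fun h => hk (Fin.ext h.symm)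
          simp [List.getElem?_set_ne this]
    have h8 := (Reach.of_jump h7).trans h6
    rw [List.length_cons]
    exact h8.mono (by omega)

/-- Multiplication by a primitive eighth root of unity. -/
def mz8 (v : V4) : V4 := (-v.2.2.2, v.1, v.2.1, v.2.2.1)

/-- Multiplication by a primitive twelfth root of unity. -/
def mz12 (v : V4) : V4 := (-v.2.2.2, v.1, v.2.1 + v.2.2.2, v.2.2.1)

/-- The orbit of a vector. -/
def orb (f : V4 → V4) (v : V4) (n : ℕ) : List V4 := (List.range n).map (fun k => f^[k] v)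

theorem orb_getD (f : V4 → V4) (v : V4) (n : ℕ) (k : Fin n) : (orb f v n).getD k 0 = f^[k] v := by
  simp [orb]

/-- The list of jumps. -/
def steps8 : List (ℕ × ℕ × V4) :=
  [(5, 6, (-2, 1, 4, 4)),
   (5, 7, (-2, -1, 0, 2)),
   (0, 5, (-1, 0, 0, 2)),
   (7, 0, (0, 0, -2, 1)),
   (5, 0, (0, 1, 0, 2)),
   (6, 5, (0, 0, -3, 2)),
   (6, 7, (0, 0, -1, 0)),
   (2, 7, (0, 2, -1, 4)),
   (2, 5, (0, 0, 1, 0)),
   (3, 6, (-2, 0, 0, 3)),
   (3, 0, (0, 0, 0, 1)),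
   (1, 6, (2, 3, 0, 0)),
   (0, 3, (1, 0, 0, 0)),
   (4, 0, (-1, -2, 0, 2)),
   (4, 3, (1, 2, 0, 0)),
   (1, 4, (0, 1, 0, 0)),
   (7, 6, (0, 0, 0, -1)),
   (4, 1, (-1, 0, 0, 0)),
   (5, 3, (0, -1, 0, 0))]

/-- The list of jumps. -/
def steps12 : List (ℕ × ℕ × V4) :=
  [(5, 6, (-2, -1, 2, 3)),
   (2, 1, (2, 0, -3, -2)),
   (5, 6, (0, 1, 2, 1)),
   (6, 5, (1, 2, 2, 0)),
   (2, 11, (-2, -2, -1, 0)),
   (1, 0, (0, -1, -2, -2)),
   (6, 4, (1, 2, 0, 0)),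
   (4, 6, (1, 2, -1, 0)),
   (2, 10, (0, -2, -1, 0)),
   (1, 11, (0, -1, -2, 0)),
   (10, 2, (1, -2, -1, 0)),
   (11, 1, (0, -1, -2, 1)),
   (3, 6, (0, 2, 0, 1)),
   (3, 4, (2, 2, -2, -1)),
   (9, 2, (2, -2, -2, -1)),
   (9, 10, (0, -2, 0, 1)),
   (2, 10, (2, -2, -1, 0)),
   (2, 9, (-2, -2, 1, 2)),
   (2, 9, (2, -2, -1, 0)),
   (2, 9, (-2, -2, 1, 2)),
   (8, 9, (2, -2, -1, 0)),
   (8, 9, (-2, -2, 1, 2)),
   (2, 9, (2, -2, -1, 0)),
   (2, 10, (0, -2, -1, 0)),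
   (1, 11, (0, -1, -2, 2)),
   (2, 9, (0, -2, 1, 2)),
   (1, 11, (0, -1, -2, 0)),
   (11, 1, (0, -1, -2, -1)),
   (11, 1, (0, -1, -2, 1)),
   (8, 9, (2, -2, -1, 0)),
   (3, 4, (0, 2, 0, 1)),
   (8, 10, (0, -2, -1, 0)),
   (2, 9, (0, -2, -1, 0)),
   (6, 4, (1, 2, -2, 0)),
   (10, 9, (-1, -2, 1, 2)),
   (8, 9, (0, -2, 1, 2)),
   (7, 10, (0, -3, 0, 2)),
   (2, 1, (0, 0, -3, 0)),
   (7, 9, (0, -1, 0, 0)),
   (2, 1, (0, -2, -1, 0)),
   (1, 2, (0, -3, 0, 0)),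
   (1, 2, (0, -1, -2, 0)),
   (6, 4, (1, 2, 0, 0)),
   (2, 7, (0, 0, 1, 0)),
   (5, 2, (0, -1, 0, -1)),
   (8, 9, (0, -2, -1, 0)),
   (3, 6, (2, 2, 0, -1)),
   (8, 9, (0, -2, 1, 2)),
   (9, 7, (0, 0, 0, -1)),
   (0, 9, (-1, 0, 2, 0)),
   (1, 11, (0, -1, -2, 2)),
   (5, 7, (0, -1, 0, 1)),
   (8, 5, (0, 0, -1, 0)),
   (11, 8, (0, 1, 0, -1)),
   (0, 2, (1, 0, 0, 0)),
   (10, 5, (1, 0, -1, 0)),
   (1, 8, (0, 1, 0, -2)),
   (3, 0, (0, -2, 0, 1)),
   (1, 11, (0, 1, 0, 0)),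
   (4, 1, (-1, 0, 1, 0)),
   (11, 1, (0, 1, 0, 1)),
   (0, 1, (-1, 2, 0, 0)),
   (11, 4, (-2, -1, 2, -1)),
   (6, 1, (-1, 0, 0, 0)),
   (7, 4, (-2, 1, 2, 0)),
   (8, 4, (-2, 0, 3, 0)),
   (8, 2, (2, 0, -1, 0)),
   (0, 1, (1, 0, 0, 0)),
   (7, 4, (0, -1, 0, 0)),
   (11, 4, (0, 1, 0, 1)),
   (3, 5, (0, 0, 0, 1)),
   (8, 10, (0, 0, -1, 0)),
   (11, 1, (0, 1, 0, -1))]

theorem ok8 : stepsOk (orb mz8 (-3, -2, 0, 2) 8) steps8 = true := by decide +kernel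

theorem run8 : runS (orb mz8 (-3, -2, 0, 2) 8) steps8 = orb mz8 (1, 0, 0, 0) 8 := by
  decide +kernel

theorem ok12 : stepsOk (orb mz12 (1, 0, -2, -2) 12) steps12 = true := by decide +kernel

theorem run12 : runS (orb mz12 (1, 0, -2, -2) 12) steps12 = orb mz12 (1, 0, 0, 0) 12 := by
  decide +kernel

/-- Evaluation at a complex number. -/
noncomputable def evz (z : ℂ) : V4 →+ ℂ where
  toFun v := v.1 + v.2.1 * z + v.2.2.1 * z ^ 2 + v.2.2.2 * z ^ 3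
  map_zero' := by simp
  map_add' a b := by
    simp only [Prod.fst_add, Prod.snd_add]
    push_cast
    ring

theorem evz_apply (z : ℂ) (v : V4) :
    evz z v = v.1 + v.2.1 * z + v.2.2.1 * z ^ 2 + v.2.2.2 * z ^ 3 := rfl

theorem evz_iter (z : ℂ) (f : V4 → V4) (hf : ∀ v, evz z (f v) = z * evz z v) (v : V4) (k : ℕ) :
    evz z (f^[k] v) = evz z v * z ^ k := by
  induction k with
  | zero => simp
  | succ k ih =>
    rw [Function.iterate_succ_apply', hf, ih]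
    ring

theorem reach8 (z : ℂ) (hz : z ^ 4 = -1) :
    Reach 19 (fun k : Fin 8 => z ^ (k : ℕ))
      (fun k : Fin 8 => (-3 - 2 * z + 2 * z ^ 3) * z ^ (k : ℕ)) := by
  have h1 := reach_steps 8 steps8 (orb mz8 (-3, -2, 0, 2) 8) (by simp [orb]) ok8
  rw [run8] at h1
  have h2 := (h1.symm).map (evz z)
  have hf : ∀ v, evz z (mz8 v) = z * evz z v := by
    intro v
    rw [evz_apply, evz_apply]
    simp only [mz8]
    push_cast
    linear_combination (-(v.2.2.2 : ℂ)) * hz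
  simp only [orb_getD, evz_iter z mz8 hf] at h2
  convert h2 using 1
  · rfl
  · funext k
    rw [evz_apply]
    simp
  · funext k
    rw [evz_apply]
    push_cast
    ring

theorem reach12 (z : ℂ) (hz : z ^ 4 = z ^ 2 - 1) :
    Reach 73 (fun k : Fin 12 => z ^ (k : ℕ))
      (fun k : Fin 12 => (1 - 2 * z ^ 2 - 2 * z ^ 3) * z ^ (k : ℕ)) := by
  have h1 := reach_steps 12 steps12 (orb mz12 (1, 0, -2, -2) 12) (by simp [orb]) ok12
  rw [run12] at h1
  have h2 := (h1.symm).map (evz z)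
  have hf : ∀ v, evz z (mz12 v) = z * evz z v := by
    intro v
    rw [evz_apply, evz_apply]
    simp only [mz12]
    push_cast
    linear_combination (-(v.2.2.2 : ℂ)) * hz
  simp only [orb_getD, evz_iter z mz12 hf] at h2
  convert h2 using 1
  · rfl
  · funext k
    rw [evz_apply]
    simp
  · funext k
    rw [evz_apply]
    push_cast
    ring

end MPe50cbd
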