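import Pool.Agent.Lib.MP_e50cbd_co.Odd
import Pool.Agent.Lib.MP_e50cbd_co.Even2b
import Pool.Agent.Lib.MP_e50cbd_co.Small

/-!
# Assembly
-/

set_option autoImplicit false

namespace MPe50cbd

open Finset

/-- The standard root of unity. -/
noncomputable def rt (N : ℕ) : ℂ := Complex.exp (2 * Real.pi * Complex.I / N)

theorem rt_prim {N : ℕ} (hN : N ≠ 0) : IsPrimitiveRoot (rt N) N :=
  Complex.isPrimitiveRoot_exp N hN

theorem rt_pow {d t : ℕ} (hd : d ≠ 0) (ht : t ≠ 0) : (rt (d * t)) ^ t = rt d := by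
  unfold rt
  rw [← Complex.exp_nat_mul]
  congr 1
  push_cast
  have h1 : (d : ℂ) ≠ 0 := Nat.cast_ne_zero.2 hd
  have h2 : (t : ℂ) ≠ 0 := Nat.cast_ne_zero.2 ht
  field_simp

theorem one_add_ne {N : ℕ} {z : ℂ} (h : IsPrimitiveRoot z N) (hN : 2 < N) : 1 + z ≠ 0 := by
  intro h0
  have h1 : z ^ 2 = 1 := by linear_combination (z - 1) * h0
  have := Nat.le_of_dvd (by norm_num) ((h.pow_eq_one_iff_dvd 2).1 h1)
  omega

theorem one_add_sq_ne {N : ℕ} {z : ℂ} (h : IsPrimitiveRoot z N) (hN : 4 < N) :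
    1 + z ^ 2 ≠ 0 := by
  intro h0
  have h1 : z ^ 4 = 1 := by linear_combination (z ^ 2 - 1) * h0
  have := Nat.le_of_dvd (by norm_num) ((h.pow_eq_one_iff_dvd 4).1 h1)
  omega

theorem pow_half {m : ℕ} {z : ℂ} (hm : 0 < m) (h : IsPrimitiveRoot z (2 * m)) : z ^ m = -1 := by
  have h1 : z ^ (2 * m) = 1 := h.pow_eq_one
  have h2 : z ^ m ≠ 1 := by
    intro h3
    have := Nat.le_of_dvd hm ((h.pow_eq_one_iff_dvd m).1 h3)
    omega
  have h4 : (z ^ m - 1) * (z ^ m + 1) = 0 := by
    have : z ^ (2 * m) = z ^ m * z ^ m := by rw [two_mul, pow_add]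
    rw [this] at h1
    linear_combination h1
  rcases mul_eq_zero.1 h4 with h5 | h5
  · exact absurd (by linear_combination h5) h2
  · linear_combination h5

theorem rt_cos {N : ℕ} :
    (2 * Real.cos (2 * Real.pi / N) : ℂ) * rt N = 1 + rt N ^ 2 := by
  have h1 : rt N = Complex.exp (((2 * Real.pi / N : ℝ) : ℂ) * Complex.I) := by
    unfold rt
    congr 1
    push_cast
    ring
  have h2 := Complex.two_cos ((2 * Real.pi / N : ℝ) : ℂ)
  rw [← Complex.ofReal_cos] at h2
  have h3 : Complex.exp (-((2 * Real.pi / N : ℝ) : ℂ) * Complex.I) *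
      Complex.exp (((2 * Real.pi / N : ℝ) : ℂ) * Complex.I) = 1 := by
    rw [← Complex.exp_add, neg_mul, neg_add_cancel, Complex.exp_zero]
  rw [h2, h1]
  linear_combination h3

theorem cos_pos_N {N : ℕ} (hN : 4 < N) : 0 < Real.cos (2 * Real.pi / N) := by
  apply Real.cos_pos_of_mem_Ioo
  have h5 : (4 : ℝ) < N := by exact_mod_cast hN
  have hpi := Real.pi_pos
  constructor
  · have : 0 < 2 * Real.pi / N := by positivity
    linarith
  · rw [div_lt_div_iff₀ (by linarith) (by norm_num)]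
    nlinarith

theorem rt_ne {N : ℕ} : rt N ≠ 0 := Complex.exp_ne_zero _

theorem norm_rt {N : ℕ} : ‖rt N‖ = 1 := by
  have h1 : rt N = Complex.exp (((2 * Real.pi / N : ℝ) : ℂ) * Complex.I) := by
    unfold rt
    congr 1
    push_cast
    ring
  rw [h1, Complex.norm_exp_ofReal_mul_I]

theorem u_eq {N : ℕ} (hN : 4 < N) :
    1 + 2 * (rt N / (1 + rt N ^ 2)) = ((1 + 1 / Real.cos (2 * Real.pi / N) : ℝ) : ℂ) := by
  rw [← rt_cos]
  have h1 := cos_pos_N hN
  have h2 : (Real.cos (2 * Real.pi / N) : ℂ) ≠ 0 := by exact_mod_cast h1.ne'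
  have h3 := @rt_ne N
  push_cast
  push_cast at h2
  field_simp

theorem norm_u {N : ℕ} (hN : 4 < N) : 1 < ‖1 + 2 * (rt N / (1 + rt N ^ 2))‖ := by
  rw [u_eq hN, Complex.norm_real, Real.norm_eq_abs]
  have h1 := cos_pos_N hN
  have h2 : 0 < 1 / Real.cos (2 * Real.pi / N) := by positivity
  rw [abs_of_pos (by linarith)]
  linarith

/-- Index of a piece of the `2m`-gon, `m = 2M - 1`. -/
def idx (M : ℕ) (i : Fin (2 * M - 1) × Bool) : ℕ :=
  if i.2 then (if 2 * (i.1 : ℕ) + (2 * M - 1) < 2 * (2 * M - 1) then 2 * (i.1 : ℕ) + (2 * M - 1)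
    else 2 * (i.1 : ℕ) - (2 * M - 1)) else 2 * (i.1 : ℕ)

theorem idx_lt {M : ℕ} (i : Fin (2 * M - 1) × Bool) :
    idx M i < 2 * (2 * M - 1) := by
  have := i.1.2
  unfold idx
  split_ifs <;> omega

theorem idx_inj {M : ℕ} (i j : Fin (2 * M - 1) × Bool) (h : idx M i = idx M j) :
    i = j := by
  obtain ⟨i1, i2⟩ := i
  obtain ⟨j1, j2⟩ := j
  have h1 := i1.2
  have h2 := j1.2
  unfold idx at h
  cases i2 <;> cases j2
  · simp only [Bool.false_eq_true, if_false] at h
    have : i1 = j1 := Fin.ext (by omega)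
    rw [this]
  · simp only [Bool.false_eq_true, if_false, if_true] at h
    split_ifs at h <;> omega
  · simp only [Bool.false_eq_true, if_false, if_true] at h
    split_ifs at h <;> omega
  · simp only [if_true] at h
    have : i1 = j1 := by
      apply Fin.ext
      split_ifs at h <;> omega
    rw [this]

theorem even2_main {M : ℕ} (hM : 3 ≤ M) :
    Reach ((2 * (2 * M - 1) + 2) * cst M)
      (fun k : Fin (2 * (2 * M - 1)) => rt (2 * (2 * M - 1)) ^ (k : ℕ))
      (fun k => (1 + 2 * (rt (2 * M - 1) / (1 + rt (2 * M - 1) ^ 2))) ^ 2 *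
        rt (2 * (2 * M - 1)) ^ (k : ℕ)) := by
  have hm0 : 2 * M - 1 ≠ 0 := by omega
  have hprim := rt_prim hm0
  have hzprim := rt_prim (show 2 * (2 * M - 1) ≠ 0 by omega)
  have hη : rt (2 * M - 1) ^ (2 * M - 1) = 1 := hprim.pow_eq_one
  have hη1 : rt (2 * M - 1) ≠ 1 := hprim.ne_one (by omega)
  have hη3 : 1 + rt (2 * M - 1) ≠ 0 := one_add_ne hprim (by omega)
  have hη2 : 1 + rt (2 * M - 1) ^ 2 ≠ 0 := one_add_sq_ne hprim (by omega)
  have hη4 : rt (2 * M - 1) ^ 2 ≠ 1 := by
    intro h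
    have := Nat.le_of_dvd (by norm_num) ((hprim.pow_eq_one_iff_dvd 2).1 h)
    omega
  have h := even2_reach hM (rt (2 * M - 1)) hη hη1 hη2 hη3 hη4
  set ζ := rt (2 * (2 * M - 1)) with hζ
  have hsq : ζ ^ 2 = rt (2 * M - 1) := by
    have := rt_pow (d := 2 * M - 1) (t := 2) hm0 (by norm_num)
    rw [mul_comm (2 * M - 1) 2] at this
    exact this
  have hhalf : ζ ^ (2 * M - 1) = -1 := pow_half (by omega) hzprim
  set e : Fin (2 * M - 1) × Bool → Fin (2 * (2 * M - 1)) := fun i => ⟨idx M i, idx_lt i⟩ with he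
  have hinj : Function.Injective e := by
    intro a b hab
    exact idx_inj a b (congrArg Fin.val hab)
  have hbij : Function.Bijective e := by
    rw [Fintype.bijective_iff_injective_and_card]
    refine ⟨hinj, ?_⟩
    simp
    ring
  have hval : ∀ i : Fin (2 * M - 1) × Bool, ζ ^ (idx M i) = sg i.2 * rt (2 * M - 1) ^ (i.1 : ℕ) := by
    intro i
    obtain ⟨l, b⟩ := i
    rw [← hsq, ← pow_mul]
    cases b
    · simp [idx, sg]
    · simp only [idx, sg, if_true]
      split_ifs with h1
      · rw [pow_add, hhalf]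
        ring
      · have h2 : ζ ^ (2 * (l : ℕ)) = ζ ^ (2 * (l : ℕ) - (2 * M - 1)) * ζ ^ (2 * M - 1) := by
          rw [← pow_add]
          congr 1
          omega
        rw [h2, hhalf]
        ring
  apply Reach.of_bij hbij
  convert h using 1
  · funext i
    simp only [Function.comp_apply, he]
    exact hval i
  · funext i
    simp only [Function.comp_apply, he]
    rw [hval i]

theorem main_complex (N : ℕ) (hN : 6 < N) :
    ∃ U C : ℂ, 1 < ‖U‖ ∧ Reach (50 * N ^ 6) (fun k : Fin N => rt N ^ (k : ℕ))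
      (fun k : Fin N => U * rt N ^ (k : ℕ) + C) := by
  have hN0 : N ≠ 0 := by omega
  have hprim := rt_prim hN0
  have hpow : ∀ a b : ℕ, a ≤ b → N ^ a ≤ N ^ b := fun a b h =>
    Nat.pow_le_pow_right (by omega) h
  have hN6 : N ≤ N ^ 6 := by
    calc N = N ^ 1 := by ring
      _ ≤ N ^ 6 := hpow 1 6 (by norm_num)
  by_cases hodd : Odd N
  · obtain ⟨C, y, h1, h2⟩ := odd_main (by omega) hodd (rt N) hprim.pow_eq_one
      (one_add_ne hprim (by omega)) (one_add_sq_ne hprim (by omega))
    refine ⟨_, C, norm_u (N := N) (by omega), ?_⟩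
    have h3 : RN N (50 * N ^ 6) (fun k => rt N ^ k)
        (fun k => (1 + 2 * (rt N / (1 + rt N ^ 2))) * rt N ^ k + C) :=
      (h1.congr h2).mono (Nat.mul_le_mul_left _ (hpow 3 6 (by norm_num)))
    exact h3
  · rw [Nat.not_odd_iff_even] at hodd
    by_cases h8 : 8 ∣ N
    · obtain ⟨t, rfl⟩ := h8
      have ht : t ≠ 0 := by
        rintro rfl
        omega
      have hz4 : (rt 8) ^ 4 = -1 := pow_half (m := 4) (by norm_num) (rt_prim (by norm_num))
      have h := reach8 (rt 8) hz4
      rw [← rt_pow (d := 8) (t := t) (by norm_num) ht] at h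
      have h2 := reach_coset (d := 8) (t := t) (rt (8 * t)) _ _ h
      rw [rt_pow (d := 8) (t := t) (by norm_num) ht] at h2
      refine ⟨(-3 - 2 * rt 8 + 2 * rt 8 ^ 3), 0, ?_, ?_⟩
      · have hc := @rt_cos 8
        have hcp := cos_pos_N (N := 8) (by norm_num)
        have e1 : (-3 - 2 * rt 8 + 2 * rt 8 ^ 3 : ℂ) =
            ((-(3 + 4 * Real.cos (2 * Real.pi / (8 : ℕ))) : ℝ) : ℂ) := by
          apply mul_left_cancel₀ (@rt_ne 8)
          push_cast at hc ⊢
          linear_combination 2 * hz4 + 2 * hc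
        rw [e1, Complex.norm_real, Real.norm_eq_abs, abs_neg, abs_of_pos (by linarith)]
        linarith
      · simp only [add_zero]
        refine h2.mono ?_
        calc 19 * t ≤ 50 * (8 * t) := by omega
          _ ≤ 50 * (8 * t) ^ 6 := Nat.mul_le_mul_left _ hN6
    · by_cases h12 : N = 12
      · subst h12
        have hz6 : (rt 12) ^ 6 = -1 := pow_half (m := 6) (by norm_num) (rt_prim (by norm_num))
        have hz2 := one_add_sq_ne hprim (by norm_num)
        have hz4 : (rt 12) ^ 4 = (rt 12) ^ 2 - 1 := by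
          apply mul_left_cancel₀ hz2
          linear_combination hz6
        have h := reach12 (rt 12) hz4
        refine ⟨(1 - 2 * rt 12 ^ 2 - 2 * rt 12 ^ 3), 0, ?_, ?_⟩
        · have hc := @rt_cos 12
          have hcp := cos_pos_N (N := 12) (by norm_num)
          have e1 : (1 - 2 * rt 12 ^ 2 - 2 * rt 12 ^ 3 : ℂ) = rt 12 ^ 3 *
              ((-(2 + 2 * Real.cos (2 * Real.pi / (12 : ℕ))) : ℝ) : ℂ) := by
            push_cast at hc ⊢
            linear_combination (rt 12 ^ 2) * hc + hz4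
          rw [e1, norm_mul, norm_pow, norm_rt, Complex.norm_real, Real.norm_eq_abs, abs_neg,
            abs_of_pos (by linarith)]
          linarith
        · simp only [add_zero]
          refine h.mono ?_
          norm_num
      · -- `N = 2 m t` with `m = 2 M - 1 ≥ 5` and `t ∈ {1, 2}`
        obtain ⟨M, t, hM, ht0, hNt⟩ : ∃ M t : ℕ, 3 ≤ M ∧ t ≠ 0 ∧ N = 2 * (2 * M - 1) * t := by
          obtain ⟨a, ha⟩ := hodd
          rcases Nat.even_or_odd' a with ⟨b, hb | hb⟩
          · rcases Nat.even_or_odd' b with ⟨c, hc | hc⟩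
            · exact absurd ⟨c, by omega⟩ h8
            · refine ⟨c + 1, 2, by omega, by norm_num, ?_⟩
              omega
          · refine ⟨b + 1, 1, by omega, by norm_num, ?_⟩
            omega
        subst hNt
        have hd : 2 * (2 * M - 1) ≠ 0 := by omega
        have h := even2_main hM
        rw [← rt_pow (d := 2 * (2 * M - 1)) (t := t) hd ht0] at h
        have h2 := reach_coset (d := 2 * (2 * M - 1)) (t := t) (rt (2 * (2 * M - 1) * t)) _ _ h
        refine ⟨(1 + 2 * (rt (2 * M - 1) / (1 + rt (2 * M - 1) ^ 2))) ^ 2, 0, ?_, ?_⟩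
        · rw [norm_pow]
          have := norm_u (N := 2 * M - 1) (by omega)
          nlinarith
        · simp only [add_zero]
          refine h2.mono ?_
          unfold cst
          generalize hm : 2 * M - 1 = m
          have hMm : M ≤ m := by omega
          have hm1 : 1 ≤ m := by omega
          have hm2 : m * m ≤ (m * m) * (m * m) := Nat.le_mul_of_pos_left _ (Nat.mul_pos hm1 hm1)
          have ht1 : t ≤ t ^ 6 := by
            calc t = t ^ 1 := by ring
              _ ≤ t ^ 6 := Nat.pow_le_pow_right (by omega) (by norm_num)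
          calc (2 * m + 2) * ((M * M + M * M * (M * M)) * (6 * m)) * t
              ≤ (2 * m + 2 * m) * ((m * m + m * m * (m * m)) * (6 * m)) * t := by
                gcongr
                omega
            _ ≤ (2 * m + 2 * m) * ((m * m * (m * m) + m * m * (m * m)) * (6 * m)) * t := by
                gcongr
            _ = 48 * m ^ 6 * t := by ring
            _ ≤ 48 * m ^ 6 * t ^ 6 := Nat.mul_le_mul_left _ ht1
            _ ≤ 3200 * m ^ 6 * t ^ 6 := by gcongr; norm_num
            _ = 50 * (2 * m * t) ^ 6 := by ring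

end MPe50cbd
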