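import Pool.Agent.Lib.MP_e50cbd_co.TPhase

/-!
# Odd `N`
-/

set_option autoImplicit false

namespace MPe50cbd

open Finset

theorem geom_alt (z v : ℂ) (i K : ℕ) :
    (1 + z ^ 2) * ∑ k ∈ range K, (2 * (-1) ^ k : ℤ) • (z ^ (i + 1 + 2 * k) - v) =
      2 * (z ^ (i + 1) - (-1) ^ K * z ^ (i + 1 + 2 * K)) - (1 + z ^ 2) * (1 - (-1) ^ K) * v := by
  induction K with
  | zero => simp
  | succ K ih =>
    rw [Finset.sum_range_succ, mul_add, ih, zsmul_eq_mul]
    push_cast
    ring

/-- class constants, `N ≡ 1 mod 4` -/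
def kap1 (v w : ℂ) (r : ℕ) : ℂ :=
  if r = 0 then -2 * w * v else if r = 1 then 2 * w * v ^ 2 - 2 * v
  else if r = 2 then 2 * w * v - 2 * v else -2 * w * v ^ 2

/-- class constants, `N ≡ 3 mod 4` -/
def kap3 (v w : ℂ) (r : ℕ) : ℂ :=
  if r = 0 then 2 * w * v - 2 * v else if r = 1 then -2 * w * v ^ 2
  else if r = 2 then -2 * w * v else 2 * w * v ^ 2 - 2 * v

theorem TT_case1 (q : ℕ) (z v w : ℂ) (hz : z * v = 1) (hw : w * (1 + z ^ 2) = z)
    (h1 : z ^ (4 * q + 1) = 1) (hne : 1 + z ^ 2 ≠ 0) (k : ℕ) (hk : k < 4 * q + 1) :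
    TT (4 * q + 1) (fun k => z ^ k) k = (1 + 2 * w) * z ^ k + kap1 v w (k % 4) := by
  have h4 : z ^ (4 * q) = v := by
    have : z ^ (4 * q) * (z * v) = v := by rw [← mul_assoc, ← pow_succ, h1, one_mul]
    rwa [hz, mul_one] at this
  by_cases hlt : k < 4 * q
  · unfold TT
    rw [if_pos (by omega)]
    · have e : SK (4 * q + 1) k (fun k => z ^ k) =
        ∑ j ∈ range ((4 * q + 1 - 1 - k) / 2), (2 * (-1) ^ j : ℤ) • (z ^ (k + 1 + 2 * j) - v) := by
        unfold SK
        simp only [Nat.add_sub_cancel, h4]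
      rw [e]
      have hS := geom_alt z v k ((4 * q + 1 - 1 - k) / 2)
      set S := ∑ j ∈ range ((4 * q + 1 - 1 - k) / 2), (2 * (-1) ^ j : ℤ) •
        (z ^ (k + 1 + 2 * j) - v) with hSdef
      set K := (4 * q + 1 - 1 - k) / 2 with hK
      apply mul_left_cancel₀ hne
      obtain ⟨j, r, hr, rfl⟩ : ∃ j r, r < 4 ∧ k = 4 * j + r :=
        ⟨k / 4, k % 4, Nat.mod_lt _ (by norm_num), by omega⟩
      have hmod : (4 * j + r) % 4 = r := by omega
      rw [hmod]
      interval_cases r
      · have hKe : K = 2 * (q - j) := by omega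
        have e1 : (-1 : ℂ) ^ K = 1 := by rw [hKe, pow_mul]; simp
        have e2 : z ^ (4 * j + 0 + 1 + 2 * K) = 1 := by
          rw [← h1]; congr 1; omega
        rw [e1, e2] at hS
        simp only [kap1, if_true]
        rw [mul_add, hS]
        linear_combination (-2 * z ^ (4 * j + 0) + 2 * v) * hw + 2 * hz
      · have hKe : K = 2 * (q - j - 1) + 1 := by omega
        have e1 : (-1 : ℂ) ^ K = -1 := by rw [hKe, pow_succ, pow_mul]; simp
        have e2 : z ^ (4 * j + 1 + 1 + 2 * K) = v := by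
          rw [← h4]; congr 1; omega
        rw [e1, e2] at hS
        simp only [kap1, one_ne_zero, if_false, if_true]
        rw [mul_add, hS]
        linear_combination (-2 * z ^ (4 * j + 1) - 2 * v ^ 2) * hw - 2 * v * hz
      · have hKe : K = 2 * (q - j - 1) + 1 := by omega
        have e1 : (-1 : ℂ) ^ K = -1 := by rw [hKe, pow_succ, pow_mul]; simp
        have e2 : z ^ (4 * j + 2 + 1 + 2 * K) = 1 := by
          rw [← h1]; congr 1; omega
        rw [e1, e2] at hS
        simp only [kap1, OfNat.ofNat_ne_zero, OfNat.ofNat_ne_one, if_false, if_true]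
        rw [mul_add, hS]
        linear_combination (-2 * z ^ (4 * j + 2) - 2 * v) * hw - 2 * hz
      · have hKe : K = 2 * (q - j - 1) := by omega
        have e1 : (-1 : ℂ) ^ K = 1 := by rw [hKe, pow_mul]; simp
        have e2 : z ^ (4 * j + 3 + 1 + 2 * K) = v := by
          rw [← h4]; congr 1; omega
        rw [e1, e2] at hS
        have e3 : kap1 v w 3 = -2 * w * v ^ 2 := by simp [kap1]
        rw [e3, mul_add, hS]
        linear_combination (-2 * z ^ (4 * j + 3) + 2 * v ^ 2) * hw + 2 * v * hz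
  · have hk' : k = 4 * q := by omega
    subst hk'
    unfold TT
    rw [if_neg (by omega)]
    simp only [h4]
    have : (4 * q) % 4 = 0 := by omega
    rw [this]
    simp only [kap1, if_true]
    ring

theorem TT_case3 (q : ℕ) (z v w : ℂ) (hz : z * v = 1) (hw : w * (1 + z ^ 2) = z)
    (h1 : z ^ (4 * q + 3) = 1) (hne : 1 + z ^ 2 ≠ 0) (k : ℕ) (hk : k < 4 * q + 3) :
    TT (4 * q + 3) (fun k => z ^ k) k = (1 + 2 * w) * z ^ k + kap3 v w (k % 4) := by
  have h4 : z ^ (4 * q + 2) = v := by
    have : z ^ (4 * q + 2) * (z * v) = v := by rw [← mul_assoc, ← pow_succ, h1, one_mul]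
    rwa [hz, mul_one] at this
  by_cases hlt : k < 4 * q + 2
  · unfold TT
    rw [if_pos (by omega)]
    · have e : SK (4 * q + 3) k (fun k => z ^ k) =
        ∑ j ∈ range ((4 * q + 3 - 1 - k) / 2), (2 * (-1) ^ j : ℤ) • (z ^ (k + 1 + 2 * j) - v) := by
        unfold SK
        simp only [show 4 * q + 3 - 1 = 4 * q + 2 by omega, h4]
      rw [e]
      have hS := geom_alt z v k ((4 * q + 3 - 1 - k) / 2)
      set S := ∑ j ∈ range ((4 * q + 3 - 1 - k) / 2), (2 * (-1) ^ j : ℤ) •
        (z ^ (k + 1 + 2 * j) - v) with hSdef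
      set K := (4 * q + 3 - 1 - k) / 2 with hK
      apply mul_left_cancel₀ hne
      obtain ⟨j, r, hr, rfl⟩ : ∃ j r, r < 4 ∧ k = 4 * j + r :=
        ⟨k / 4, k % 4, Nat.mod_lt _ (by norm_num), by omega⟩
      have hmod : (4 * j + r) % 4 = r := by omega
      rw [hmod]
      interval_cases r
      · have hKe : K = 2 * (q - j) + 1 := by omega
        have e1 : (-1 : ℂ) ^ K = -1 := by rw [hKe, pow_succ, pow_mul]; simp
        have e2 : z ^ (4 * j + 0 + 1 + 2 * K) = 1 := by
          rw [← h1]; congr 1; omega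
        rw [e1, e2] at hS
        simp only [kap3, if_true]
        rw [mul_add, hS]
        linear_combination (-2 * z ^ (4 * j + 0) - 2 * v) * hw - 2 * hz
      · have hKe : K = 2 * (q - j) := by omega
        have e1 : (-1 : ℂ) ^ K = 1 := by rw [hKe, pow_mul]; simp
        have e2 : z ^ (4 * j + 1 + 1 + 2 * K) = v := by
          rw [← h4]; congr 1; omega
        rw [e1, e2] at hS
        simp only [kap3, one_ne_zero, if_false, if_true]
        rw [mul_add, hS]
        linear_combination (-2 * z ^ (4 * j + 1) + 2 * v ^ 2) * hw + 2 * v * hz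
      · have hKe : K = 2 * (q - j) := by omega
        have e1 : (-1 : ℂ) ^ K = 1 := by rw [hKe, pow_mul]; simp
        have e2 : z ^ (4 * j + 2 + 1 + 2 * K) = 1 := by
          rw [← h1]; congr 1; omega
        rw [e1, e2] at hS
        simp only [kap3, OfNat.ofNat_ne_zero, OfNat.ofNat_ne_one, if_false, if_true]
        rw [mul_add, hS]
        linear_combination (-2 * z ^ (4 * j + 2) + 2 * v) * hw + 2 * hz
      · have hKe : K = 2 * (q - j - 1) + 1 := by omega
        have e1 : (-1 : ℂ) ^ K = -1 := by rw [hKe, pow_succ, pow_mul]; simp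
        have e2 : z ^ (4 * j + 3 + 1 + 2 * K) = v := by
          rw [← h4]; congr 1; omega
        rw [e1, e2] at hS
        have e3 : kap3 v w 3 = 2 * w * v ^ 2 - 2 * v := by simp [kap3]
        rw [e3, mul_add, hS]
        linear_combination (-2 * z ^ (4 * j + 3) - 2 * v ^ 2) * hw - 2 * v * hz
  · have hk' : k = 4 * q + 2 := by omega
    subst hk'
    unfold TT
    rw [if_neg (by omega)]
    simp only [h4]
    have : (4 * q + 2) % 4 = 2 := by omega
    rw [this]
    simp only [kap3, OfNat.ofNat_ne_zero, OfNat.ofNat_ne_one, if_false, if_true]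
    ring

theorem sum_g_block (u z : ℂ) (κ : ℕ → ℂ) (q : ℕ) :
    (1 + z) * ∑ k ∈ range (4 * q), ((-1) ^ k : ℤ) • (u * z ^ k + κ (k % 4)) =
      u * (1 - z ^ (4 * q)) + (1 + z) * (q * (κ 0 - κ 1 + κ 2 - κ 3)) := by
  induction q with
  | zero => simp
  | succ q ih =>
    rw [show 4 * (q + 1) = 4 * q + 1 + 1 + 1 + 1 by ring]
    simp only [Finset.sum_range_succ, mul_add, ih]
    rw [show (4 * q) % 4 = 0 by omega, show (4 * q + 1) % 4 = 1 by omega,
      show (4 * q + 1 + 1) % 4 = 2 by omega, show (4 * q + 1 + 1 + 1) % 4 = 3 by omega]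
    have e : (-1 : ℤ) ^ (4 * q) = 1 := by rw [pow_mul]; norm_num
    simp only [pow_succ (-1 : ℤ), e, zsmul_eq_mul]
    push_cast
    ring

theorem sum_phi_block (u z : ℂ) (κ : ℕ → ℂ) (q : ℕ) :
    (1 + z) ^ 2 * ∑ k ∈ range (4 * q), (-((-1) ^ k * (k : ℤ)) : ℤ) • (u * z ^ k + κ (k % 4)) =
      u * (z + 4 * q * z ^ (4 * q) + (4 * q - 1) * z ^ (4 * q + 1)) +
      (1 + z) ^ 2 * (2 * q * (q - 1) * (-κ 0 + κ 1 - κ 2 + κ 3) +
        q * (κ 1 - 2 * κ 2 + 3 * κ 3)) := by
  induction q with
  | zero => simp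
  | succ q ih =>
    rw [show 4 * (q + 1) = 4 * q + 1 + 1 + 1 + 1 by ring]
    simp only [Finset.sum_range_succ, mul_add, ih]
    rw [show (4 * q) % 4 = 0 by omega, show (4 * q + 1) % 4 = 1 by omega,
      show (4 * q + 1 + 1) % 4 = 2 by omega, show (4 * q + 1 + 1 + 1) % 4 = 3 by omega]
    have e : (-1 : ℤ) ^ (4 * q) = 1 := by rw [pow_mul]; norm_num
    simp only [pow_succ (-1 : ℤ), e, zsmul_eq_mul]
    push_cast
    ring

theorem cost_bound (N : ℕ) (h : 5 ≤ N) :
    N * N + 10 * N * N ^ 2 + N * N + 2 * N + 4 * (2 * N ^ 2) ≤ 50 * N ^ 3 := by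
  have h1 : N * N ≤ N ^ 3 := by
    calc N * N = N ^ 2 * 1 := by ring
      _ ≤ N ^ 2 * N := Nat.mul_le_mul_left _ (by omega)
      _ = N ^ 3 := by ring
  have h2 : N ≤ N * N := Nat.le_mul_of_pos_left _ (by omega)
  have h3 : 10 * N * N ^ 2 = 10 * N ^ 3 := by ring
  have h4 : 4 * (2 * N ^ 2) = 8 * (N * N) := by ring
  rw [h3, h4]
  omega

theorem odd_case1 (q : ℕ) (hq : 1 ≤ q) (z : ℂ) (h1 : z ^ (4 * q + 1) = 1) (hz1 : 1 + z ≠ 0)
    (hz2 : 1 + z ^ 2 ≠ 0) :
    ∃ C : ℂ, ∃ y : ℕ → ℂ, RN (4 * q + 1) (50 * (4 * q + 1) ^ 3) (fun k => z ^ k) y ∧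
      ∀ k < 4 * q + 1, y k = (1 + 2 * (z / (1 + z ^ 2))) * z ^ k + C := by
  have hz0 : z ≠ 0 := by
    rintro rfl
    simp at h1
  set v : ℂ := 1 / z with hv
  set w : ℂ := z / (1 + z ^ 2) with hwdef
  have hz : z * v = 1 := by rw [hv]; field_simp
  have hw : w * (1 + z ^ 2) = z := by rw [hwdef]; field_simp
  have h4 : z ^ (4 * q) = v := by
    have : z ^ (4 * q) * (z * v) = v := by rw [← mul_assoc, ← pow_succ, h1, one_mul]
    rwa [hz, mul_one] at this
  set N := 4 * q + 1 with hN
  have hN2 : N = 2 * (2 * q) + 1 := by omega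
  set y := TT N (fun k => z ^ k) with hy
  have hyv : ∀ k < N, y k = (1 + 2 * w) * z ^ k + kap1 v w (k % 4) :=
    fun k hk => TT_case1 q z v w hz hw h1 hz2 k hk
  -- values of the functionals
  have hg : ev N (gg (2 * q)) y = w * (1 - v ^ 2) := by
    unfold ev
    rw [hN2, Finset.sum_range_succ]
    have e1 : gg (2 * q) (2 * (2 * q)) = 0 := by simp [gg]
    have e2 : ∑ k ∈ range (2 * (2 * q)), gg (2 * q) k • y k =
        ∑ k ∈ range (4 * q), ((-1) ^ k : ℤ) • ((1 + 2 * w) * z ^ k + kap1 v w (k % 4)) := by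
      rw [show 2 * (2 * q) = 4 * q by ring]
      apply Finset.sum_congr rfl
      intro k hk
      rw [Finset.mem_range] at hk
      rw [hyv k (by omega), gg_lt (by omega)]
    rw [e1, e2, zero_smul, add_zero]
    apply mul_left_cancel₀ hz1
    rw [sum_g_block, h4]
    simp only [kap1]
    norm_num
    rw [hv, hwdef]
    field_simp
    ring
  have hf : ev N (phi (2 * q)) y = w * (1 - v) := by
    unfold ev
    rw [hN2, Finset.sum_range_succ]
    have e1 : phi (2 * q) (2 * (2 * q)) = -((2 * q : ℕ) : ℤ) := by simp [phi]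
    have e2 : ∑ k ∈ range (2 * (2 * q)), phi (2 * q) k • y k =
        ∑ k ∈ range (4 * q), (-((-1) ^ k * (k : ℤ)) : ℤ) •
          ((1 + 2 * w) * z ^ k + kap1 v w (k % 4)) := by
      rw [show 2 * (2 * q) = 4 * q by ring]
      apply Finset.sum_congr rfl
      intro k hk
      rw [Finset.mem_range] at hk
      rw [hyv k (by omega), phi_lt (by omega)]
    have e3 : y (2 * (2 * q)) = v := by
      rw [hyv _ (by omega), show 2 * (2 * q) = 4 * q by ring, h4,
        show (4 * q) % 4 = 0 by omega]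
      simp only [kap1, if_true]
      ring
    rw [e1, e2, e3]
    have hz12 : (1 + z) ^ 2 ≠ 0 := pow_ne_zero _ hz1
    apply mul_left_cancel₀ hz12
    rw [mul_add, sum_phi_block, h4, h1]
    simp only [kap1, zsmul_eq_mul]
    push_cast
    norm_num
    rw [hv, hwdef]
    field_simp
    ring
  -- the moves
  have k0 : RN N (N * N) (fun k => z ^ k) y := TT_reach N _
  rw [hN2] at hg hf
  obtain ⟨a1, a2, a3⟩ := phaseA (m := 2 * q) (a := 1) q (by omega) y
  rw [hf] at a1 a2 a3
  set ya := stA 1 q (w * (1 - v)) y with hya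
  obtain ⟨b1, b2, b3⟩ := phaseB (m := 2 * q) (a := 1) q (by omega) ya
  rw [a3, hg] at b1
  rw [← hN2] at a1 b1
  refine ⟨-2 * w * v, stB 1 q (w * (1 - v ^ 2)) ya, ?_, ?_⟩
  · refine ((k0.trans a1).trans b1).mono ?_
    have : q ≤ N := by omega
    have h5 : 5 ≤ N := by omega
    have h41 : 4 * q ≤ N := by omega
    calc N * N + q * (40 * N ^ 2) + q * (4 * N) = N * N + 10 * (4 * q) * N ^ 2 + (4 * q) * N := by
          ring
      _ ≤ N * N + 10 * N * N ^ 2 + N * N := by gcongr
      _ ≤ 50 * N ^ 3 := by nlinarith [sq_nonneg N, Nat.pos_of_ne_zero (show N ≠ 0 by omega)]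
  · intro k hk
    unfold stB
    rw [hya]
    unfold stA
    rw [hyv k hk]
    obtain ⟨j, r, hr, rfl⟩ : ∃ j r, r < 4 ∧ k = 4 * j + r :=
      ⟨k / 4, k % 4, Nat.mod_lt _ (by norm_num), by omega⟩
    rw [show (4 * j + r) % 4 = r by omega]
    interval_cases r
    · have e1 : wA 1 q (4 * j + 0) = 0 := by
        unfold wA
        split_ifs <;> first | rfl | omega
      have e2 : wB 1 q (4 * j + 0) = 0 := by
        unfold wB
        split_ifs <;> first | rfl | omega
      rw [e1, e2]
      simp [kap1]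
    · have e1 : wA 1 q (4 * j + 1) = 2 := by
        unfold wA
        split_ifs <;> first | rfl | omega
      have e2 : wB 1 q (4 * j + 1) = 0 := by
        unfold wB
        split_ifs <;> first | rfl | omega
      rw [e1, e2]
      simp only [kap1, zsmul_eq_mul]
      norm_num
      rw [hv, hwdef]
      field_simp
      ring
    · have e1 : wA 1 q (4 * j + 2) = 4 := by
        unfold wA
        split_ifs <;> first | rfl | omega
      have e2 : wB 1 q (4 * j + 2) = -2 := by
        unfold wB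
        split_ifs <;> first | rfl | omega
      rw [e1, e2]
      simp only [kap1, zsmul_eq_mul]
      norm_num
      rw [hv, hwdef]
      field_simp
      ring
    · have e1 : wA 1 q (4 * j + 3) = 2 := by
        unfold wA
        split_ifs <;> first | rfl | omega
      have e2 : wB 1 q (4 * j + 3) = -2 := by
        unfold wB
        split_ifs <;> first | rfl | omega
      rw [e1, e2]
      simp only [kap1, zsmul_eq_mul]
      norm_num
      rw [hv, hwdef]
      field_simp
      ring

theorem odd_case3 (q : ℕ) (hq : 1 ≤ q) (z : ℂ) (h1 : z ^ (4 * q + 3) = 1) (hz1 : 1 + z ≠ 0)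
    (hz2 : 1 + z ^ 2 ≠ 0) :
    ∃ C : ℂ, ∃ y : ℕ → ℂ, RN (4 * q + 3) (50 * (4 * q + 3) ^ 3) (fun k => z ^ k) y ∧
      ∀ k < 4 * q + 3, y k = (1 + 2 * (z / (1 + z ^ 2))) * z ^ k + C := by
  have hz0 : z ≠ 0 := by
    rintro rfl
    simp at h1
  set v : ℂ := 1 / z with hv
  set w : ℂ := z / (1 + z ^ 2) with hwdef
  have hz : z * v = 1 := by rw [hv]; field_simp
  have hw : w * (1 + z ^ 2) = z := by rw [hwdef]; field_simp
  have h4 : z ^ (4 * q + 2) = v := by
    have : z ^ (4 * q + 2) * (z * v) = v := by rw [← mul_assoc, ← pow_succ, h1, one_mul]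
    rwa [hz, mul_one] at this
  have h43 : z ^ (4 * q) = v ^ 3 := by
    have : z ^ (4 * q) * (z * v) ^ 3 = z ^ (4 * q + 3) * v ^ 3 := by ring
    rwa [hz, h1, one_pow, mul_one, one_mul] at this
  have h41 : z ^ (4 * q + 1) = v ^ 2 := by
    have : z ^ (4 * q + 1) * (z * v) ^ 2 = z ^ (4 * q + 3) * v ^ 2 := by ring
    rwa [hz, h1, one_pow, mul_one, one_mul] at this
  set N := 4 * q + 3 with hN
  have hN2 : N = 2 * (2 * q + 1) + 1 := by omega
  set y := TT N (fun k => z ^ k) with hy
  have hyv : ∀ k < N, y k = (1 + 2 * w) * z ^ k + kap3 v w (k % 4) :=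
    fun k hk => TT_case3 q z v w hz hw h1 hz2 k hk
  have hK0 : kap3 v w 0 = 2 * w * v - 2 * v := by simp [kap3]
  have hK1 : kap3 v w 1 = -2 * w * v ^ 2 := by simp [kap3]
  have hK2 : kap3 v w 2 = -2 * w * v := by simp [kap3]
  have hK3 : kap3 v w 3 = 2 * w * v ^ 2 - 2 * v := by simp [kap3]
  -- values of the functionals
  have hg : ev N (gg (2 * q + 1)) y = 2 * w * v - v := by
    unfold ev
    rw [hN2, Finset.sum_range_succ]
    have e1 : gg (2 * q + 1) (2 * (2 * q + 1)) = 0 := by simp [gg]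
    have e2 : ∑ k ∈ range (4 * q), gg (2 * q + 1) k • y k =
        ∑ k ∈ range (4 * q), ((-1) ^ k : ℤ) • ((1 + 2 * w) * z ^ k + kap3 v w (k % 4)) := by
      apply Finset.sum_congr rfl
      intro k hk
      rw [Finset.mem_range] at hk
      rw [hyv k (by omega), gg_lt (by omega)]
    rw [e1, zero_smul, add_zero, show 2 * (2 * q + 1) = 4 * q + 1 + 1 by ring,
      Finset.sum_range_succ, Finset.sum_range_succ, e2, gg_lt (by omega), gg_lt (by omega),
      hyv (4 * q) (by omega), hyv (4 * q + 1) (by omega), show (4 * q) % 4 = 0 by omega,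
      show (4 * q + 1) % 4 = 1 by omega]
    have e3 : (-1 : ℤ) ^ (4 * q) = 1 := by rw [pow_mul]; norm_num
    rw [pow_succ (-1 : ℤ), e3, h41, h43]
    apply mul_left_cancel₀ hz1
    rw [mul_add, mul_add, sum_g_block, h43]
    simp only [hK0, hK1, hK2, hK3, zsmul_eq_mul]
    push_cast
    rw [hv, hwdef]
    field_simp
    ring
  have hf : ev N (phi (2 * q + 1)) y = w * v - w * v ^ 2 := by
    unfold ev
    rw [hN2, Finset.sum_range_succ]
    have e1 : phi (2 * q + 1) (2 * (2 * q + 1)) = -((2 * q + 1 : ℕ) : ℤ) := by simp [phi]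
    have e2 : ∑ k ∈ range (4 * q), phi (2 * q + 1) k • y k =
        ∑ k ∈ range (4 * q), (-((-1) ^ k * (k : ℤ)) : ℤ) •
          ((1 + 2 * w) * z ^ k + kap3 v w (k % 4)) := by
      apply Finset.sum_congr rfl
      intro k hk
      rw [Finset.mem_range] at hk
      rw [hyv k (by omega), phi_lt (by omega)]
    have e4 : y (2 * (2 * q + 1)) = v := by
      rw [hyv _ (by omega), show 2 * (2 * q + 1) = 4 * q + 2 by ring, h4,
        show (4 * q + 2) % 4 = 2 by omega, hK2]
      ring
    rw [e1, e4, show 2 * (2 * q + 1) = 4 * q + 1 + 1 by ring,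
      Finset.sum_range_succ, Finset.sum_range_succ, e2, phi_lt (by omega), phi_lt (by omega),
      hyv (4 * q) (by omega), hyv (4 * q + 1) (by omega), show (4 * q) % 4 = 0 by omega,
      show (4 * q + 1) % 4 = 1 by omega]
    have e3 : (-1 : ℤ) ^ (4 * q) = 1 := by rw [pow_mul]; norm_num
    rw [pow_succ (-1 : ℤ), e3, h41, h43]
    have hz12 : (1 + z) ^ 2 ≠ 0 := pow_ne_zero _ hz1
    apply mul_left_cancel₀ hz12
    rw [mul_add, mul_add, mul_add, sum_phi_block, h43, h41]
    simp only [hK0, hK1, hK2, hK3, zsmul_eq_mul]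
    push_cast
    rw [hv, hwdef]
    field_simp
    ring
  -- the moves
  have k0 : RN N (N * N) (fun k => z ^ k) y := TT_reach N _
  rw [hN2] at hg hf
  obtain ⟨a1, a2, a3⟩ := phaseA (m := 2 * q + 1) (a := 2) q (by omega) y
  rw [hf] at a1 a2 a3
  set ya := stA 2 q (w * v - w * v ^ 2) y with hya
  obtain ⟨b1, b2, b3⟩ := phaseB (m := 2 * q + 1) (a := 2) q (by omega) ya
  rw [a3, hg] at b1 b2 b3
  rw [a2] at b3
  set yb := stB 2 q (2 * w * v - v) ya with hyb
  -- the last piece
  have c1 := RN_single (N := 2 * (2 * q + 1) + 1) (by omega) (i := 4 * q + 2) (by omega)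
    (gg (2 * q + 1)) (by unfold gg; rw [if_neg (by omega)]) (sum_gg _) yb
  rw [b2] at c1
  set yc := yb + Pi.single (4 * q + 2) (2 • (2 * w * v - v)) with hyc
  have c2 : ev (2 * (2 * q + 1) + 1) (psi (2 * q + 1) (2 * q + 1)) yc =
      (w * v - w * v ^ 2) - (2 * w * v - v) := by
    rw [ev_psi, hyc, ev_add_single _ _ (by omega), ev_add_single _ _ (by omega), b2, b3]
    have e1 : phi (2 * q + 1) (4 * q + 2) = -((2 * q + 1 : ℕ) : ℤ) := by
      unfold phi
      rw [if_neg (by omega), if_pos (by omega)]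
    have e2 : gg (2 * q + 1) (4 * q + 2) = 0 := by
      unfold gg
      rw [if_neg (by omega)]
    rw [e1, e2]
    simp only [zsmul_eq_mul, nsmul_eq_mul]
    push_cast
    ring
  have d1 := RN_pair (N := 2 * (2 * q + 1) + 1) (by omega) (a := 0) (b := 4 * q + 2) (by omega)
    (by omega) (by omega) (psi (2 * q + 1) (2 * q + 1))
    (by
      unfold psi phi gg
      rw [if_pos (by omega), if_pos (by omega), if_neg (by omega), if_pos (by omega),
        if_neg (by omega)]
      push_cast
      ring) (sum_psi _ _) yc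
  rw [c2] at d1
  set yd := yc + Pi.single 0 (2 • ((w * v - w * v ^ 2) - (2 * w * v - v))) +
    Pi.single (4 * q + 2) (2 • ((w * v - w * v ^ 2) - (2 * w * v - v))) with hyd
  have n1 := nrm_gg (2 * q + 1)
  have n2 := nrm_psi (2 * q + 1) ((2 * q + 1 : ℕ) : ℤ) (2 * q + 1) (le_of_eq (Int.natAbs_natCast _))
  push_cast at n2
  rw [← hN2] at a1 b1 c1 d1 n1 n2
  refine ⟨-2 * w * v ^ 2, yd, ?_, ?_⟩
  · refine ((((k0.trans a1).trans b1).trans c1).trans d1).mono ?_
    have h5 : 5 ≤ N := by omega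
    have h41 : 4 * q ≤ N := by omega
    have n3 : nrm N (psi (2 * q + 1) (2 * (q : ℤ) + 1)) ≤ 2 * N ^ 2 := by
      refine n2.trans ?_
      have : 2 * (2 * q + 1) + (2 * q + 1) ≤ 2 * N := by omega
      calc N * (2 * (2 * q + 1) + (2 * q + 1)) ≤ N * (2 * N) := Nat.mul_le_mul_left _ this
        _ = 2 * N ^ 2 := by ring
    calc N * N + q * (40 * N ^ 2) + q * (4 * N) + 2 * nrm N (gg (2 * q + 1)) +
          4 * nrm N (psi (2 * q + 1) (2 * (q : ℤ) + 1))
        ≤ N * N + q * (40 * N ^ 2) + q * (4 * N) + 2 * N + 4 * (2 * N ^ 2) := by gcongr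
      _ = N * N + 10 * (4 * q) * N ^ 2 + (4 * q) * N + 2 * N + 4 * (2 * N ^ 2) := by ring
      _ ≤ N * N + 10 * N * N ^ 2 + N * N + 2 * N + 4 * (2 * N ^ 2) := by gcongr
      _ ≤ 50 * N ^ 3 := cost_bound N h5
  · intro k hk
    rw [hyd, hyc]
    simp only [Pi.add_apply]
    rw [hyb]
    unfold stB
    rw [hya]
    unfold stA
    rw [hyv k hk]
    by_cases hk0 : k = 0
    · subst hk0
      have e1 : wA 2 q 0 = 0 := by
        unfold wA
        split_ifs <;> first | rfl | omega
      have e2 : wB 2 q 0 = 0 := by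
        unfold wB
        split_ifs <;> first | rfl | omega
      rw [e1, e2, Pi.single_eq_same, Pi.single_eq_of_ne (show (0 : ℕ) ≠ 4 * q + 2 by omega),
        Pi.single_eq_of_ne (show (0 : ℕ) ≠ 4 * q + 2 by omega), show 0 % 4 = 0 from rfl, hK0]
      simp only [nsmul_eq_mul, zero_smul]
      push_cast
      rw [hv, hwdef]
      field_simp
      ring
    · by_cases hkN : k = 4 * q + 2
      · subst hkN
        have e1 : wA 2 q (4 * q + 2) = 0 := by
          unfold wA
          split_ifs <;> first | rfl | omega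
        have e2 : wB 2 q (4 * q + 2) = 0 := by
          unfold wB
          split_ifs <;> first | rfl | omega
        rw [e1, e2, Pi.single_eq_same, Pi.single_eq_same,
          Pi.single_eq_of_ne (show 4 * q + 2 ≠ 0 by omega), show (4 * q + 2) % 4 = 2 by omega, hK2]
        simp only [nsmul_eq_mul, zero_smul]
        push_cast
        rw [hv, hwdef]
        field_simp
        ring
      · rw [Pi.single_eq_of_ne hk0, Pi.single_eq_of_ne hkN, Pi.single_eq_of_ne hkN]
        obtain ⟨j, r, hr, rfl⟩ : ∃ j r, r < 4 ∧ k = 4 * j + r :=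
          ⟨k / 4, k % 4, Nat.mod_lt _ (by norm_num), by omega⟩
        rw [show (4 * j + r) % 4 = r by omega]
        interval_cases r
        · have e1 : wA 2 q (4 * j + 0) = 2 := by
            unfold wA
            split_ifs <;> first | rfl | omega
          have e2 : wB 2 q (4 * j + 0) = -2 := by
            unfold wB
            split_ifs <;> first | rfl | omega
          rw [e1, e2, hK0]
          simp only [zsmul_eq_mul]
          push_cast
          rw [hv, hwdef]
          field_simp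
          ring
        · have e1 : wA 2 q (4 * j + 1) = 0 := by
            unfold wA
            split_ifs <;> first | rfl | omega
          have e2 : wB 2 q (4 * j + 1) = 0 := by
            unfold wB
            split_ifs <;> first | rfl | omega
          rw [e1, e2, hK1]
          simp only [zsmul_eq_mul]
          push_cast
          ring
        · have e1 : wA 2 q (4 * j + 2) = 2 := by
            unfold wA
            split_ifs <;> first | rfl | omega
          have e2 : wB 2 q (4 * j + 2) = 0 := by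
            unfold wB
            split_ifs <;> first | rfl | omega
          rw [e1, e2, hK2]
          simp only [zsmul_eq_mul]
          push_cast
          ring
        · have e1 : wA 2 q (4 * j + 3) = 4 := by
            unfold wA
            split_ifs <;> first | rfl | omega
          have e2 : wB 2 q (4 * j + 3) = -2 := by
            unfold wB
            split_ifs <;> first | rfl | omega
          rw [e1, e2, hK3]
          simp only [zsmul_eq_mul]
          push_cast
          ring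

/-- For odd `N ≥ 5` the configuration `1, z, …, z ^ (N - 1)` (`z ^ N = 1`) can be multiplied by
`1 + 2 z / (1 + z ^ 2)` up to a translation in at most `50 N ^ 3` moves. -/
theorem odd_main {N : ℕ} (hN : 5 ≤ N) (hodd : Odd N) (z : ℂ) (h1 : z ^ N = 1) (hz1 : 1 + z ≠ 0)
    (hz2 : 1 + z ^ 2 ≠ 0) :
    ∃ C : ℂ, ∃ y : ℕ → ℂ, RN N (50 * N ^ 3) (fun k => z ^ k) y ∧
      ∀ k < N, y k = (1 + 2 * (z / (1 + z ^ 2))) * z ^ k + C := by
  obtain ⟨m, hm⟩ := hodd
  rcases Nat.even_or_odd' m with ⟨q, hq | hq⟩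
  · obtain rfl : N = 4 * q + 1 := by omega
    exact odd_case1 q (by omega) z h1 hz1 hz2
  · obtain rfl : N = 4 * q + 3 := by omega
    exact odd_case3 q (by omega) z h1 hz1 hz2

end MPe50cbd
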