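import Pool.Agent.Lib.MP_e50cbd_co.Trans

/-!
# The two correction phases used for odd `N`
-/

set_option autoImplicit false

namespace MPe50cbd

open Finset

variable {M : Type*} [AddCommGroup M]

/-- The functional `x₁ - 2 x₂ + 3 x₃ - ⋯` balanced at the last piece `2 m`. -/
def phi (m : ℕ) : ℕ → ℤ := fun k =>
  if k < 2 * m then -((-1) ^ k * (k : ℤ)) else if k = 2 * m then -(m : ℤ) else 0

/-- The functional `x₀ - x₁ + x₂ - ⋯`. -/
def gg (m : ℕ) : ℕ → ℤ := fun k => if k < 2 * m then (-1) ^ k else 0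

theorem phi_lt {m k : ℕ} (h : k < 2 * m) : phi m k = -((-1) ^ k * (k : ℤ)) := by
  simp [phi, h]

theorem gg_lt {m k : ℕ} (h : k < 2 * m) : gg m k = (-1) ^ k := by
  simp [gg, h]

theorem sum_alt (m : ℕ) : ∑ k ∈ range (2 * m), -((-1 : ℤ) ^ k * (k : ℤ)) = m := by
  induction m with
  | zero => simp
  | succ m ih =>
    rw [show 2 * (m + 1) = 2 * m + 1 + 1 by ring, Finset.sum_range_succ, Finset.sum_range_succ, ih]
    have : (-1 : ℤ) ^ (2 * m) = 1 := by rw [pow_mul]; simp
    rw [pow_succ, this]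
    push_cast
    ring

theorem sum_alt' (m : ℕ) : ∑ k ∈ range (2 * m), (-1 : ℤ) ^ k = 0 := by
  induction m with
  | zero => simp
  | succ m ih =>
    rw [show 2 * (m + 1) = 2 * m + 1 + 1 by ring, Finset.sum_range_succ, Finset.sum_range_succ, ih]
    rw [pow_succ]
    ring

theorem sum_phi (m : ℕ) : ∑ k ∈ range (2 * m + 1), phi m k = 0 := by
  rw [Finset.sum_range_succ]
  have : ∑ k ∈ range (2 * m), phi m k = m := by
    rw [← sum_alt m]
    apply Finset.sum_congr rfl
    intro k hk
    exact phi_lt (Finset.mem_range.1 hk)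
  rw [this]
  simp [phi]

theorem sum_gg (m : ℕ) : ∑ k ∈ range (2 * m + 1), gg m k = 0 := by
  rw [Finset.sum_range_succ]
  have : ∑ k ∈ range (2 * m), gg m k = 0 := by
    rw [← sum_alt' m]
    apply Finset.sum_congr rfl
    intro k hk
    exact gg_lt (Finset.mem_range.1 hk)
  rw [this]
  simp [gg]

theorem nrm_le {N B : ℕ} (h : ℕ → ℤ) (hB : ∀ k < N, (h k).natAbs ≤ B) : nrm N h ≤ N * B := by
  unfold nrm
  calc ∑ k ∈ range N, (h k).natAbs ≤ ∑ _k ∈ range N, B :=
        Finset.sum_le_sum (fun k hk => hB k (Finset.mem_range.1 hk))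
    _ = N * B := by simp

theorem phi_natAbs (m k : ℕ) : (phi m k).natAbs ≤ 2 * m := by
  unfold phi
  split_ifs with h h'
  · rw [Int.natAbs_neg, Int.natAbs_mul, Int.natAbs_pow]
    simp
    omega
  · omega
  · simp

theorem gg_natAbs (m k : ℕ) : (gg m k).natAbs ≤ 1 := by
  unfold gg
  split_ifs with h
  · rw [Int.natAbs_pow]; simp
  · simp

/-- `phi + c • gg`. -/
def psi (m : ℕ) (c : ℤ) : ℕ → ℤ := fun k => phi m k + c * gg m k

theorem sum_psi (m : ℕ) (c : ℤ) : ∑ k ∈ range (2 * m + 1), psi m c k = 0 := by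
  unfold psi
  rw [Finset.sum_add_distrib, ← Finset.mul_sum, sum_phi, sum_gg]
  simp

theorem ev_psi (N m : ℕ) (c : ℤ) (x : ℕ → M) :
    ev N (psi m c) x = ev N (phi m) x + c • ev N (gg m) x := by
  unfold ev psi
  rw [Finset.smul_sum, ← Finset.sum_add_distrib]
  apply Finset.sum_congr rfl
  intro k _
  rw [add_smul, mul_smul]

/-- scalar multiple of a functional -/
def smf (c : ℤ) (h : ℕ → ℤ) : ℕ → ℤ := fun k => c * h k

theorem ev_smf (N : ℕ) (c : ℤ) (h : ℕ → ℤ) (x : ℕ → M) : ev N (smf c h) x = c • ev N h x := by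
  unfold ev smf
  rw [Finset.smul_sum]
  apply Finset.sum_congr rfl
  intro k _
  rw [mul_smul]

theorem sum_smf (N : ℕ) (c : ℤ) (h : ℕ → ℤ) (hs : ∑ k ∈ range N, h k = 0) :
    ∑ k ∈ range N, smf c h k = 0 := by
  unfold smf
  rw [← Finset.mul_sum, hs, mul_zero]

theorem nrm_smf (N : ℕ) (c : ℤ) (h : ℕ → ℤ) : nrm N (smf c h) = c.natAbs * nrm N h := by
  unfold nrm smf
  rw [Finset.mul_sum]
  apply Finset.sum_congr rfl
  intro k _
  rw [Int.natAbs_mul]

theorem nrm_gg (m : ℕ) : nrm (2 * m + 1) (gg m) ≤ 2 * m + 1 := by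
  have := nrm_le (N := 2 * m + 1) (gg m) (fun k _ => gg_natAbs m k)
  omega

theorem nrm_psi (m : ℕ) (c : ℤ) (B : ℕ) (hc : c.natAbs ≤ B) :
    nrm (2 * m + 1) (psi m c) ≤ (2 * m + 1) * (2 * m + B) := by
  apply nrm_le
  intro k _
  unfold psi
  have h1 := phi_natAbs m k
  have h2 := gg_natAbs m k
  calc (phi m k + c * gg m k).natAbs ≤ (phi m k).natAbs + (c * gg m k).natAbs :=
        Int.natAbs_add_le _ _
    _ = (phi m k).natAbs + c.natAbs * (gg m k).natAbs := by rw [Int.natAbs_mul]
    _ ≤ 2 * m + B * 1 := Nat.add_le_add h1 (Nat.mul_le_mul hc h2)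
    _ = 2 * m + B := by ring

/-- The local step of the first phase. -/
def bumpA (X : ℕ) (f : M) (x : ℕ → M) : ℕ → M :=
  x + Pi.single X ((2 : ℤ) • f) + Pi.single (X + 1) ((4 : ℤ) • f) + Pi.single (X + 2) ((2 : ℤ) • f)

/-- The local step of the second phase. -/
def bumpB (X : ℕ) (g : M) (x : ℕ → M) : ℕ → M :=
  x + Pi.single (X + 1) ((-2 : ℤ) • g) + Pi.single (X + 2) ((-2 : ℤ) • g)

theorem ev_bumpA_phi {m X : ℕ} (hX : X + 2 < 2 * m) (f : M) (x : ℕ → M) :
    ev (2 * m + 1) (phi m) (bumpA X f x) = ev (2 * m + 1) (phi m) x := by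
  unfold bumpA
  rw [ev_add_single _ _ (by omega), ev_add_single _ _ (by omega), ev_add_single _ _ (by omega),
    phi_lt (by omega), phi_lt (by omega), phi_lt (by omega)]
  simp only [smul_smul, add_assoc, ← add_smul]
  rw [show -((-1 : ℤ) ^ X * (X : ℤ)) * 2 + (-((-1) ^ (X + 1) * ((X + 1 : ℕ) : ℤ)) * 4 +
    -((-1) ^ (X + 2) * ((X + 2 : ℕ) : ℤ)) * 2) = 0 by push_cast; ring, zero_smul, add_zero]

theorem ev_bumpA_gg {m X : ℕ} (hX : X + 2 < 2 * m) (f : M) (x : ℕ → M) :
    ev (2 * m + 1) (gg m) (bumpA X f x) = ev (2 * m + 1) (gg m) x := by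
  unfold bumpA
  rw [ev_add_single _ _ (by omega), ev_add_single _ _ (by omega), ev_add_single _ _ (by omega),
    gg_lt (by omega), gg_lt (by omega), gg_lt (by omega)]
  simp only [smul_smul, add_assoc, ← add_smul]
  rw [show (-1 : ℤ) ^ X * 2 + ((-1) ^ (X + 1) * 4 + (-1) ^ (X + 2) * 2) = 0 by ring,
    zero_smul, add_zero]

theorem ev_bumpB_gg {m X : ℕ} (hX : X + 2 < 2 * m) (g : M) (x : ℕ → M) :
    ev (2 * m + 1) (gg m) (bumpB X g x) = ev (2 * m + 1) (gg m) x := by
  unfold bumpB
  rw [ev_add_single _ _ (by omega), ev_add_single _ _ (by omega),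
    gg_lt (by omega), gg_lt (by omega)]
  simp only [smul_smul, add_assoc, ← add_smul]
  rw [show ((-1 : ℤ) ^ (X + 1) * -2 + (-1) ^ (X + 2) * -2) = 0 by ring,
    zero_smul, add_zero]

theorem ev_bumpB_phi {m X : ℕ} (hX : X + 2 < 2 * m) (g : M) (x : ℕ → M) :
    ev (2 * m + 1) (phi m) (bumpB X g x) =
      ev (2 * m + 1) (phi m) x + (2 * (-1) ^ X : ℤ) • g := by
  unfold bumpB
  rw [ev_add_single _ _ (by omega), ev_add_single _ _ (by omega),
    phi_lt (by omega), phi_lt (by omega)]
  simp only [smul_smul, add_assoc, ← add_smul]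
  congr 2
  push_cast
  ring

theorem bumpA_reach {m X : ℕ} (hX : X + 2 < 2 * m) (x : ℕ → M) :
    RN (2 * m + 1) (40 * (2 * m + 1) ^ 2) x
      (bumpA X (ev (2 * m + 1) (phi m) x) x) := by
  set N := 2 * m + 1 with hN
  set f := ev N (phi m) x with hf
  set g := ev N (gg m) x with hg
  set c : ℤ := (X : ℤ) + 1 with hc
  set F := ev N (psi m c) x with hF
  have hFe : F = f + c • g := ev_psi N m c x
  have p0 : phi m X = -((-1) ^ X * (X : ℤ)) := phi_lt (by omega)
  have p1 : phi m (X + 1) = -((-1) ^ (X + 1) * ((X + 1 : ℕ) : ℤ)) := phi_lt (by omega)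
  have p2 : phi m (X + 2) = -((-1) ^ (X + 2) * ((X + 2 : ℕ) : ℤ)) := phi_lt (by omega)
  have g0 : gg m X = (-1) ^ X := gg_lt (by omega)
  have g1 : gg m (X + 1) = (-1) ^ (X + 1) := gg_lt (by omega)
  have g2 : gg m (X + 2) = (-1) ^ (X + 2) := gg_lt (by omega)
  have s02 : psi m c X + psi m c (X + 2) = 0 := by
    unfold psi
    rw [p0, p2, g0, g2, hc]
    push_cast
    ring
  have s1 : psi m c (X + 1) = 0 := by
    unfold psi
    rw [p1, g1, hc]
    push_cast
    ring
  -- first step
  have k1 := RN_pair (N := N) (by omega) (a := X) (b := X + 2) (by omega) (by omega) (by omega)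
    (psi m c) s02 (sum_psi m c) x
  rw [← hF] at k1
  set x1 : ℕ → M := x + Pi.single X (2 • F) + Pi.single (X + 2) (2 • F) with hx1
  -- second step
  have e1 : ev N (psi m c) x1 = F := by
    rw [hx1, ev_add_single _ _ (by omega), ev_add_single _ _ (by omega), add_assoc, ← add_smul,
      s02, zero_smul, add_zero]
  have e1g : ev N (gg m) x1 = g + ((-1) ^ X * 4 : ℤ) • F := by
    rw [hx1, ev_add_single _ _ (by omega), ev_add_single _ _ (by omega), g0, g2]
    rw [show (2 : ℕ) • F = (2 : ℤ) • F by norm_cast]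
    simp only [smul_smul, add_assoc, ← add_smul]
    congr 2
    ring
  have k2 := RN_single (N := N) (by omega) (i := X + 1) (by omega) (smf 2 (psi m c))
    (by simp [smf, s1]) (sum_smf _ _ _ (sum_psi m c)) x1
  rw [ev_smf, e1] at k2
  set x2 : ℕ → M := x1 + Pi.single (X + 1) (2 • (2 : ℤ) • F) with hx2
  have e2g : ev N (gg m) x2 = g := by
    rw [hx2, ev_add_single _ _ (by omega), e1g, g1]
    rw [show (2 : ℕ) • (2 : ℤ) • F = (4 : ℤ) • F by
      rw [← natCast_zsmul, smul_smul]; norm_num]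
    simp only [smul_smul, add_assoc, ← add_smul]
    rw [show ((-1 : ℤ) ^ X * 4 + (-1) ^ (X + 1) * 4) = 0 by ring, zero_smul, add_zero]
  -- third step
  have k3 := RN_pair (N := N) (by omega) (a := X) (b := X + 1) (by omega) (by omega) (by omega)
    (smf (-c) (gg m)) (by unfold smf; rw [g0, g1]; ring) (sum_smf _ _ _ (sum_gg m)) x2
  rw [ev_smf, e2g] at k3
  set x3 : ℕ → M := x2 + Pi.single X (2 • (-c) • g) + Pi.single (X + 1) (2 • (-c) • g) with hx3
  have e3g : ev N (gg m) x3 = g := by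
    rw [hx3, ev_add_single _ _ (by omega), ev_add_single _ _ (by omega), e2g, g0, g1, add_assoc,
      ← add_smul, show ((-1 : ℤ) ^ X + (-1) ^ (X + 1)) = 0 by ring, zero_smul, add_zero]
  -- fourth step
  have k4 := RN_pair (N := N) (by omega) (a := X + 1) (b := X + 2) (by omega) (by omega) (by omega)
    (smf (-c) (gg m)) (by unfold smf; rw [g1, g2]; ring) (sum_smf _ _ _ (sum_gg m)) x3
  rw [ev_smf, e3g] at k4
  have k := ((k1.trans k2).trans k3).trans k4
  have hcn : c.natAbs ≤ N := by omega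
  have hn1 := nrm_psi m c N hcn
  have hn2 := nrm_gg m
  have hn3 : nrm N (smf 2 (psi m c)) = 2 * nrm N (psi m c) := by rw [nrm_smf]; rfl
  have hn4 : nrm N (smf (-c) (gg m)) ≤ N * N := by
    rw [nrm_smf, Int.natAbs_neg]
    exact Nat.mul_le_mul hcn hn2
  refine (?_ : RN N (4 * nrm N (psi m c) + 2 * nrm N (smf 2 (psi m c)) +
    4 * nrm N (smf (-c) (gg m)) + 4 * nrm N (smf (-c) (gg m))) x _).mono ?_
  · convert k using 1
    rw [hx3, hx2, hx1, hFe]
    unfold bumpA
    funext l
    simp only [Pi.add_apply]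
    by_cases h0 : l = X
    · subst h0
      simp only [Pi.single_eq_same, Pi.single_eq_of_ne (show l ≠ l + 1 by omega),
        Pi.single_eq_of_ne (show l ≠ l + 2 by omega), add_zero]
      module
    · by_cases h1 : l = X + 1
      · subst h1
        simp only [Pi.single_eq_same, Pi.single_eq_of_ne (show X + 1 ≠ X by omega),
          Pi.single_eq_of_ne (show X + 1 ≠ X + 2 by omega), add_zero]
        module
      · by_cases h2 : l = X + 2
        · subst h2
          simp only [Pi.single_eq_same, Pi.single_eq_of_ne (show X + 2 ≠ X by omega),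
            Pi.single_eq_of_ne (show X + 2 ≠ X + 1 by omega), add_zero]
          module
        · simp only [Pi.single_eq_of_ne h0, Pi.single_eq_of_ne h1, Pi.single_eq_of_ne h2, add_zero]
  · rw [hn3]
    have h5 : nrm N (psi m c) ≤ 2 * N ^ 2 := by
      refine hn1.trans ?_
      rw [← hN]
      nlinarith
    nlinarith

theorem bumpB_reach {m X : ℕ} (hX : X + 2 < 2 * m) (x : ℕ → M) :
    RN (2 * m + 1) (4 * (2 * m + 1)) x (bumpB X (ev (2 * m + 1) (gg m) x) x) := by
  have g1 : gg m (X + 1) = (-1) ^ (X + 1) := gg_lt (by omega)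
  have g2 : gg m (X + 2) = (-1) ^ (X + 2) := gg_lt (by omega)
  have k := RN_pair (N := 2 * m + 1) (by omega) (a := X + 1) (b := X + 2) (by omega) (by omega)
    (by omega) (smf (-1) (gg m)) (by unfold smf; rw [g1, g2]; ring) (sum_smf _ _ _ (sum_gg m)) x
  rw [ev_smf] at k
  refine (?_ : RN _ (4 * nrm (2 * m + 1) (smf (-1) (gg m))) x _).mono ?_
  · convert k using 1
    unfold bumpB
    congr 1
    · congr 2
      module
    · congr 1
      module
  · rw [nrm_smf]
    have := nrm_gg m
    simp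
    exact this

/-- weights of phase A -/
def wA (a t k : ℕ) : ℤ :=
  if a ≤ k ∧ k < a + 4 * t then
    (if (k - a) % 4 = 0 then 2 else if (k - a) % 4 = 1 then 4 else if (k - a) % 4 = 2 then 2 else 0)
  else 0

/-- weights of phase B -/
def wB (a t k : ℕ) : ℤ :=
  if a ≤ k ∧ k < a + 4 * t then
    (if (k - a) % 4 = 1 then -2 else if (k - a) % 4 = 2 then -2 else 0)
  else 0

/-- state after `t` rounds of phase A -/
def stA (a t : ℕ) (f : M) (x : ℕ → M) : ℕ → M := fun k => x k + wA a t k • f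

/-- state after `t` rounds of phase B -/
def stB (a t : ℕ) (g : M) (x : ℕ → M) : ℕ → M := fun k => x k + wB a t k • g

theorem stA_succ (a t : ℕ) (f : M) (x : ℕ → M) :
    stA a (t + 1) f x = bumpA (4 * t + a) f (stA a t f x) := by
  unfold stA bumpA
  funext k
  simp only [Pi.add_apply]
  by_cases h0 : k = 4 * t + a
  · subst h0
    simp only [Pi.single_eq_same, Pi.single_eq_of_ne (show 4 * t + a ≠ 4 * t + a + 1 by omega),
      Pi.single_eq_of_ne (show 4 * t + a ≠ 4 * t + a + 2 by omega), add_zero]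
    have e1 : wA a (t + 1) (4 * t + a) = 2 := by
      unfold wA
      rw [if_pos (by omega), if_pos (by omega)]
    have e2 : wA a t (4 * t + a) = 0 := by
      unfold wA
      rw [if_neg (by omega)]
    rw [e1, e2, zero_smul, add_zero]
  · by_cases h1 : k = 4 * t + a + 1
    · subst h1
      simp only [Pi.single_eq_same, Pi.single_eq_of_ne (show 4 * t + a + 1 ≠ 4 * t + a by omega),
        Pi.single_eq_of_ne (show 4 * t + a + 1 ≠ 4 * t + a + 2 by omega), add_zero]
      have e1 : wA a (t + 1) (4 * t + a + 1) = 4 := by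
        unfold wA
        rw [if_pos (by omega), if_neg (by omega), if_pos (by omega)]
      have e2 : wA a t (4 * t + a + 1) = 0 := by
        unfold wA
        rw [if_neg (by omega)]
      rw [e1, e2, zero_smul, add_zero]
    · by_cases h2 : k = 4 * t + a + 2
      · subst h2
        simp only [Pi.single_eq_same, Pi.single_eq_of_ne (show 4 * t + a + 2 ≠ 4 * t + a by omega),
          Pi.single_eq_of_ne (show 4 * t + a + 2 ≠ 4 * t + a + 1 by omega), add_zero]
        have e1 : wA a (t + 1) (4 * t + a + 2) = 2 := by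
          unfold wA
          rw [if_pos (by omega), if_neg (by omega), if_neg (by omega), if_pos (by omega)]
        have e2 : wA a t (4 * t + a + 2) = 0 := by
          unfold wA
          rw [if_neg (by omega)]
        rw [e1, e2, zero_smul, add_zero]
      · simp only [Pi.single_eq_of_ne h0, Pi.single_eq_of_ne h1, Pi.single_eq_of_ne h2, add_zero]
        congr 2
        unfold wA
        split_ifs <;> omega

theorem stB_succ (a t : ℕ) (g : M) (x : ℕ → M) :
    stB a (t + 1) g x = bumpB (4 * t + a) g (stB a t g x) := by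
  unfold stB bumpB
  funext k
  simp only [Pi.add_apply]
  by_cases h1 : k = 4 * t + a + 1
  · subst h1
    simp only [Pi.single_eq_same,
      Pi.single_eq_of_ne (show 4 * t + a + 1 ≠ 4 * t + a + 2 by omega), add_zero]
    have e1 : wB a (t + 1) (4 * t + a + 1) = -2 := by
      unfold wB
      rw [if_pos (by omega), if_pos (by omega)]
    have e2 : wB a t (4 * t + a + 1) = 0 := by
      unfold wB
      rw [if_neg (by omega)]
    rw [e1, e2, zero_smul, add_zero]
  · by_cases h2 : k = 4 * t + a + 2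
    · subst h2
      simp only [Pi.single_eq_same,
        Pi.single_eq_of_ne (show 4 * t + a + 2 ≠ 4 * t + a + 1 by omega), add_zero]
      have e1 : wB a (t + 1) (4 * t + a + 2) = -2 := by
        unfold wB
        rw [if_pos (by omega), if_neg (by omega), if_pos (by omega)]
      have e2 : wB a t (4 * t + a + 2) = 0 := by
        unfold wB
        rw [if_neg (by omega)]
      rw [e1, e2, zero_smul, add_zero]
    · simp only [Pi.single_eq_of_ne h1, Pi.single_eq_of_ne h2, add_zero]
      congr 2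
      unfold wB
      split_ifs <;> omega

theorem phaseA {m a : ℕ} (t : ℕ) (ht : 4 * t + a ≤ 2 * m + 1) (x : ℕ → M) :
    RN (2 * m + 1) (t * (40 * (2 * m + 1) ^ 2)) x (stA a t (ev (2 * m + 1) (phi m) x) x) ∧
    ev (2 * m + 1) (phi m) (stA a t (ev (2 * m + 1) (phi m) x) x) = ev (2 * m + 1) (phi m) x ∧
    ev (2 * m + 1) (gg m) (stA a t (ev (2 * m + 1) (phi m) x) x) = ev (2 * m + 1) (gg m) x := by
  induction t with
  | zero =>
    have : stA a 0 (ev (2 * m + 1) (phi m) x) x = x := by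
      funext k
      simp [stA, wA]
    rw [this]
    exact ⟨RN.refl _ _ _, rfl, rfl⟩
  | succ t ih =>
    obtain ⟨h1, h2, h3⟩ := ih (by omega)
    rw [stA_succ]
    have k := bumpA_reach (m := m) (X := 4 * t + a) (by omega)
      (stA a t (ev (2 * m + 1) (phi m) x) x)
    rw [h2] at k
    refine ⟨(h1.trans k).mono (le_of_eq (by ring)), ?_, ?_⟩
    · rw [ev_bumpA_phi (by omega), h2]
    · rw [ev_bumpA_gg (by omega), h3]

theorem phaseB {m a : ℕ} (t : ℕ) (ht : 4 * t + a ≤ 2 * m + 1) (x : ℕ → M) :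
    RN (2 * m + 1) (t * (4 * (2 * m + 1))) x (stB a t (ev (2 * m + 1) (gg m) x) x) ∧
    ev (2 * m + 1) (gg m) (stB a t (ev (2 * m + 1) (gg m) x) x) = ev (2 * m + 1) (gg m) x ∧
    ev (2 * m + 1) (phi m) (stB a t (ev (2 * m + 1) (gg m) x) x) = ev (2 * m + 1) (phi m) x +
      ((t : ℤ) * (2 * (-1) ^ a)) • ev (2 * m + 1) (gg m) x := by
  induction t with
  | zero =>
    have : stB a 0 (ev (2 * m + 1) (gg m) x) x = x := by
      funext k
      simp [stB, wB]
    rw [this]
    exact ⟨RN.refl _ _ _, rfl, by simp⟩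
  | succ t ih =>
    obtain ⟨h1, h2, h3⟩ := ih (by omega)
    rw [stB_succ]
    have k := bumpB_reach (m := m) (X := 4 * t + a) (by omega)
      (stB a t (ev (2 * m + 1) (gg m) x) x)
    rw [h2] at k
    refine ⟨(h1.trans k).mono (le_of_eq (by ring)), ?_, ?_⟩
    · rw [ev_bumpB_gg (by omega), h2]
    · rw [ev_bumpB_phi (by omega), h3, add_assoc, ← add_smul]
      congr 2
      rw [pow_add, pow_mul]
      push_cast
      norm_num
      ring

end MPe50cbd
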