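import Pool.Agent.Lib.MP_e50cbd_co.Basic

/-!
# Shifting one piece while the others stay fixed
-/

set_option autoImplicit false

namespace MPe50cbd

open Finset

variable {ι M : Type*} [DecidableEq ι] [AddCommGroup M]

/-- `Dis y i n δ`: piece `i` can be displaced by `δ` from any position in at most `n` moves, while
the other pieces stay at their positions given by `y`. -/
def Dis (y : ι → M) (i : ι) (n : ℕ) (δ : M) : Prop :=
  ∀ c : M, Reach n (Function.update y i c) (Function.update y i (c + δ))

theorem Dis.mono {y : ι → M} {i : ι} {n m : ℕ} {δ : M} (h : Dis y i n δ) (hnm : n ≤ m) :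
    Dis y i m δ := fun c => (h c).mono hnm

theorem Dis.zero (y : ι → M) (i : ι) (n : ℕ) : Dis y i n 0 := by
  intro c
  rw [add_zero]
  exact Reach.refl _ _

theorem Dis.neg {y : ι → M} {i : ι} {n : ℕ} {δ : M} (h : Dis y i n δ) : Dis y i n (-δ) := by
  intro c
  have := (h (c + -δ)).symm
  rw [neg_add_cancel_right] at this
  exact this

theorem Dis.add {y : ι → M} {i : ι} {n m : ℕ} {δ ε : M} (h : Dis y i n δ) (h' : Dis y i m ε) :
    Dis y i (n + m) (δ + ε) := by
  intro c
  have := (h c).trans (h' (c + δ))
  rwa [add_assoc] at this

theorem Dis.sum {y : ι → M} {i : ι} {α : Type*} [DecidableEq α] (s : Finset α) (n : ℕ) (δ : α → M)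
    (h : ∀ a ∈ s, Dis y i n (δ a)) : Dis y i (s.card * n) (∑ a ∈ s, δ a) := by
  induction s using Finset.induction_on with
  | empty =>
    simp only [Finset.sum_empty]
    exact Dis.zero _ _ _
  | insert a s ha ih =>
    rw [Finset.sum_insert ha, Finset.card_insert_of_notMem ha]
    have h1 := (h a (Finset.mem_insert_self a s)).add
      (ih (fun b hb => h b (Finset.mem_insert_of_mem hb)))
    exact h1.mono (le_of_eq (by ring))

theorem update_add_single (y : ι → M) (i : ι) (c d : M) :
    Function.update y i c + Pi.single i d = Function.update y i (c + d) := by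
  funext k
  by_cases hk : k = i
  · subst hk
    simp
  · simp [Function.update_of_ne hk, Pi.single_eq_of_ne hk]

/-- Displacement by twice a difference. -/
theorem Dis.diff (y : ι → M) {i j k : ι} (hj : i ≠ j) (hk : i ≠ k) :
    Dis y i 2 (2 • (y k - y j)) := by
  intro c
  have h := reach_diff (Function.update y i c) hj hk
  rw [update_add_single, Function.update_of_ne hk.symm, Function.update_of_ne hj.symm] at h
  exact h

/-- Displacement by four times the position of another piece, if there is an antipodal pair. -/
theorem Dis.four (y : ι → M) {i a r r' : ι} (ha : i ≠ a) (hr : i ≠ r) (hr' : i ≠ r')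
    (hy : y r' = - y r) : Dis y i 6 (4 • y a) := by
  have h1 := (Dis.diff y hr ha).add (Dis.diff y hr ha)
  have h2 := h1.add (Dis.diff y hr' hr)
  have e : 2 • (y a - y r) + 2 • (y a - y r) + 2 • (y r - y r') = 4 • y a := by
    rw [hy]
    have e4 : (4 • y a : M) = 2 • y a + 2 • y a := by
      rw [← add_smul]
    rw [e4]
    simp only [two_nsmul]
    abel
  rw [e] at h2
  exact h2

/-- Processing a finite set of pieces one after the other. -/
theorem reach_pass (x z : ι → M) (n : ℕ) (A B : Finset ι)
    (h : ∀ B' ⊆ B, ∀ i ∈ B, i ∉ B' → i ∉ A ∧
      Dis (fun k => if k ∈ A ∪ B' then z k else x k) i n (z i - x i)) :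
    Reach (B.card * n) (fun k => if k ∈ A then z k else x k)
      (fun k => if k ∈ A ∪ B then z k else x k) := by
  have key : ∀ B' : Finset ι, B' ⊆ B → Reach (B'.card * n) (fun k => if k ∈ A then z k else x k)
      (fun k => if k ∈ A ∪ B' then z k else x k) := by
    intro B'
    induction B' using Finset.induction_on with
    | empty =>
      intro _
      simp only [Finset.union_empty]
      exact Reach.refl _ _
    | insert a s ha ih =>
      intro hs
      have hsB : s ⊆ B := fun b hb => hs (Finset.mem_insert_of_mem hb)
      obtain ⟨haA, hd⟩ := h s hsB a (hs (Finset.mem_insert_self a s)) ha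
      have h1 := ih hsB
      have h2 := hd (x a)
      rw [add_sub_cancel] at h2
      have e1 : Function.update (fun k => if k ∈ A ∪ s then z k else x k) a (x a) =
          (fun k => if k ∈ A ∪ s then z k else x k) := by
        funext k
        by_cases hk : k = a
        · subst hk
          rw [Function.update_self, if_neg (by simp [haA, ha])]
        · rw [Function.update_of_ne hk]
      have e2 : Function.update (fun k => if k ∈ A ∪ s then z k else x k) a (z a) =
          (fun k => if k ∈ A ∪ insert a s then z k else x k) := by
        funext k
        by_cases hk : k = a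
        · subst hk
          rw [Function.update_self, if_pos (by simp)]
        · rw [Function.update_of_ne hk]
          have : (k ∈ A ∪ insert a s) ↔ k ∈ A ∪ s := by
            simp [hk]
          simp only [this]
      rw [e1, e2] at h2
      rw [Finset.card_insert_of_notMem ha]
      exact (h1.trans h2).mono (le_of_eq (by ring))
  exact key B (Finset.Subset.refl _)

end MPe50cbd
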