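import Pool.Agent.Lib.MP_e50cbd_co.Phases

/-!
# The unitriangular phase
-/

set_option autoImplicit false

namespace MPe50cbd

open Finset

variable {M : Type*} [AddCommGroup M]

/-- Displacement of piece `i` in the unitriangular phase. -/
def SK (N i : ℕ) (x : ℕ → M) : M :=
  ∑ k ∈ range ((N - 1 - i) / 2), (2 * (-1) ^ k : ℤ) • (x (i + 1 + 2 * k) - x (N - 1))

/-- State after the unitriangular phase. -/
def TT (N : ℕ) (x : ℕ → M) : ℕ → M := fun i => if i < N - 1 then x i + SK N i x else x i

theorem TT_partial (N : ℕ) (x : ℕ → M) (t : ℕ) (ht : t ≤ N - 1) :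
    RN N (t * N) x (fun i => if i < t then TT N x i else x i) := by
  induction t with
  | zero =>
    have : (fun i => if i < 0 then TT N x i else x i) = x := by
      funext i
      simp
    rw [this]
    exact RN.refl _ _ _
  | succ t ih =>
    have h1 := ih (by omega)
    set zt : ℕ → M := fun i => if i < t then TT N x i else x i with hzt
    have k := RN_sum zt (i := t) (r := N - 1) (N := N) (by omega) (by omega) (by omega)
      (range ((N - 1 - t) / 2)) (fun k => t + 1 + 2 * k) (fun k => (-1) ^ k)
      (by
        intro a ha
        rw [Finset.mem_range] at ha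
        constructor <;> omega)
    have e : ∑ a ∈ range ((N - 1 - t) / 2), (2 * (-1) ^ a : ℤ) •
        (zt (t + 1 + 2 * a) - zt (N - 1)) = SK N t x := by
      unfold SK
      apply Finset.sum_congr rfl
      intro a ha
      rw [Finset.mem_range] at ha
      rw [hzt]
      simp only
      rw [if_neg (by omega), if_neg (by omega)]
    rw [e] at k
    have c : 2 * ∑ a ∈ range ((N - 1 - t) / 2), ((-1 : ℤ) ^ a).natAbs ≤ N := by
      have : ∀ a ∈ range ((N - 1 - t) / 2), ((-1 : ℤ) ^ a).natAbs = 1 := by
        intro a _
        rw [Int.natAbs_pow]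
        simp
      rw [Finset.sum_congr rfl this]
      simp
      omega
    have h2 := h1.trans (k.mono c)
    refine (?_ : RN N (t * N + N) x _).mono (le_of_eq (by ring))
    refine h2.congr ?_
    intro i _
    by_cases hi : i = t
    · subst hi
      simp only [Pi.add_apply, Pi.single_eq_same, hzt]
      rw [if_neg (by omega), if_pos (by omega)]
      unfold TT
      rw [if_pos (by omega)]
    · simp only [Pi.add_apply, Pi.single_eq_of_ne hi, add_zero, hzt]
      by_cases h : i < t
      · rw [if_pos h, if_pos (by omega)]
      · rw [if_neg h, if_neg (by omega)]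

theorem TT_reach (N : ℕ) (x : ℕ → M) : RN N (N * N) x (TT N x) := by
  have h := TT_partial N x (N - 1) le_rfl
  refine RN.mono ?_ (Nat.mul_le_mul_right N (Nat.sub_le N 1))
  refine h.congr ?_
  intro i hi
  by_cases h : i < N - 1
  · rw [if_pos h]
  · rw [if_neg h]
    unfold TT
    rw [if_neg h]

end MPe50cbd
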