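import Pool.Agent.Lib.MP_e50cbd_co.Basic

/-!
# Transvections by even multiples of integral functionals
-/

set_option autoImplicit false

namespace MPe50cbd

open Finset

variable {M : Type*} [AddCommGroup M]

/-- Reachability for configurations indexed by `ℕ` of which only the pieces `< N` count. -/
def RN (N n : ℕ) (x y : ℕ → M) : Prop :=
  Reach n (fun k : Fin N => x k) (fun k : Fin N => y k)

theorem RN.refl (N n : ℕ) (x : ℕ → M) : RN N n x x := Reach.refl _ _

theorem RN.trans {N a b : ℕ} {x y z : ℕ → M} (h : RN N a x y) (h' : RN N b y z) :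
    RN N (a + b) x z := Reach.trans h h'

theorem RN.mono {N a b : ℕ} {x y : ℕ → M} (h : RN N a x y) (hab : a ≤ b) : RN N b x y :=
  Reach.mono h hab

theorem RN.symm {N a : ℕ} {x y : ℕ → M} (h : RN N a x y) : RN N a y x := Reach.symm h

theorem RN.congr {N a : ℕ} {x y y' : ℕ → M} (h : RN N a x y) (hy : ∀ k < N, y k = y' k) :
    RN N a x y' := by
  unfold RN at *
  convert h using 1
  funext k
  exact (hy k k.2).symm

/-- Evaluation of an integral functional. -/
def ev (N : ℕ) (h : ℕ → ℤ) (x : ℕ → M) : M := ∑ k ∈ range N, h k • x k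

/-- The `ℓ¹` norm of a functional. -/
def nrm (N : ℕ) (h : ℕ → ℤ) : ℕ := ∑ k ∈ range N, (h k).natAbs

theorem ev_add_single {N : ℕ} (h : ℕ → ℤ) (x : ℕ → M) {a : ℕ} (ha : a < N) (d : M) :
    ev N h (x + Pi.single a d) = ev N h x + h a • d := by
  unfold ev
  simp only [Pi.add_apply, smul_add, Finset.sum_add_distrib]
  congr 1
  rw [Finset.sum_eq_single a]
  · simp
  · intro b _ hb
    simp [Pi.single_eq_of_ne hb]
  · intro h
    exact absurd (Finset.mem_range.2 ha) h

theorem restr_add_single {N : ℕ} (x : ℕ → M) {a : ℕ} (ha : a < N) (d : M) :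
    (fun k : Fin N => (x + Pi.single a d : ℕ → M) k) =
      (fun k : Fin N => x k) + Pi.single ⟨a, ha⟩ d := by
  funext k
  by_cases hk : (k : ℕ) = a
  · have : k = ⟨a, ha⟩ := Fin.ext hk
    subst this
    simp
  · have : k ≠ ⟨a, ha⟩ := fun h => hk (by rw [h])
    simp [Pi.single_eq_of_ne hk, Pi.single_eq_of_ne this]

theorem exists_other {N : ℕ} (hN : 2 ≤ N) (i : ℕ) : ∃ r < N, i ≠ r := by
  by_cases h : i = 0
  · exact ⟨1, by omega, by omega⟩
  · exact ⟨0, by omega, h⟩

theorem exists_other2 {N : ℕ} (hN : 3 ≤ N) (i j : ℕ) : ∃ r < N, i ≠ r ∧ j ≠ r := by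
  by_cases h : i ≠ 0 ∧ j ≠ 0
  · exact ⟨0, by omega, h⟩
  · by_cases h1 : i ≠ 1 ∧ j ≠ 1
    · exact ⟨1, by omega, h1⟩
    · exact ⟨2, by omega, by omega, by omega⟩

/-- Adding an even combination of differences, `ℕ`-indexed version. -/
theorem RN_sum {N : ℕ} {α : Type*} [DecidableEq α] (x : ℕ → M) {i r : ℕ} (hi : i < N) (hr : r < N)
    (hir : i ≠ r) (s : Finset α) (idx : α → ℕ) (c : α → ℤ)
    (h : ∀ a ∈ s, idx a < N ∧ i ≠ idx a) :
    RN N (2 * ∑ a ∈ s, (c a).natAbs) x
      (x + Pi.single i (∑ a ∈ s, (2 * c a) • (x (idx a) - x r))) := by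
  unfold RN
  rw [restr_add_single x hi]
  have key := reach_sum (fun k : Fin N => x k) (i := ⟨i, hi⟩) (r := ⟨r, hr⟩)
    (fun h => hir (by simpa using h)) s
    (fun a => if ha : idx a < N then ⟨idx a, ha⟩ else ⟨r, hr⟩) c
    (by
      intro a ha
      obtain ⟨h1, h2⟩ := h a ha
      simp only [h1, dif_pos]
      intro h3
      exact h2 (by simpa using h3))
  convert key using 3
  apply Finset.sum_congr rfl
  intro a ha
  obtain ⟨h1, h2⟩ := h a ha
  simp only [h1, dif_pos]

/-- A single piece moved by twice a balanced functional not involving it. -/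
theorem RN_single {N : ℕ} (hN : 2 ≤ N) {i : ℕ} (hi : i < N) (h : ℕ → ℤ) (h0 : h i = 0)
    (hs : ∑ k ∈ range N, h k = 0) (x : ℕ → M) :
    RN N (2 * nrm N h) x (x + Pi.single i (2 • ev N h x)) := by
  obtain ⟨r, hr, hir⟩ := exists_other hN i
  have key := RN_sum x hi hr hir ((range N).erase i) id h
    (by
      intro a ha
      rw [Finset.mem_erase, Finset.mem_range] at ha
      exact ⟨ha.2, fun h => ha.1 h.symm⟩)
  refine (?_ : RN N (2 * ∑ a ∈ (range N).erase i, (h a).natAbs) x _).mono ?_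
  · convert key using 3
    unfold ev
    have e1 : ∑ a ∈ (range N).erase i, (2 * h a) • (x (id a) - x r) =
        ∑ a ∈ range N, (2 * h a) • (x a - x r) := by
      rw [← Finset.add_sum_erase (range N) (fun a => (2 * h a) • (x a - x r))
        (Finset.mem_range.2 hi)]
      simp [h0]
    rw [e1]
    simp only [smul_sub, Finset.sum_sub_distrib]
    rw [← Finset.sum_smul, ← Finset.mul_sum, hs, mul_zero, zero_smul, sub_zero, Finset.smul_sum]
    apply Finset.sum_congr rfl
    intro a _
    rw [mul_smul]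
    norm_cast
  · unfold nrm
    apply Nat.mul_le_mul_left
    exact Finset.sum_le_sum_of_subset (Finset.erase_subset _ _)

theorem RN_leap {N : ℕ} (x : ℕ → M) {a b : ℕ} (ha : a < N) (hb : b < N) (hab : a ≠ b) (c : ℤ) :
    RN N (2 * c.natAbs) x (x + Pi.single a ((2 * c) • (x a - x b)) +
      Pi.single b ((2 * c) • (x a - x b))) := by
  unfold RN
  rw [restr_add_single _ hb, restr_add_single _ ha]
  exact reach_leap_zsmul (fun k : Fin N => x k) (a := ⟨a, ha⟩) (b := ⟨b, hb⟩)
    (fun h => hab (by simpa using h)) c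

/-- Two pieces moved simultaneously by twice a balanced functional whose two coefficients on them
cancel. -/
theorem RN_pair {N : ℕ} (hN : 3 ≤ N) {a b : ℕ} (ha : a < N) (hb : b < N) (hab : a ≠ b)
    (h : ℕ → ℤ) (h0 : h a + h b = 0) (hs : ∑ k ∈ range N, h k = 0) (x : ℕ → M) :
    RN N (4 * nrm N h) x (x + Pi.single a (2 • ev N h x) + Pi.single b (2 • ev N h x)) := by
  obtain ⟨r, hr, har, hbr⟩ := exists_other2 hN a b
  set s := ((range N).erase a).erase b with hsdef
  set D : M := ∑ k ∈ s, (2 * h k) • (x k - x r) with hD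
  have hmem : ∀ k ∈ s, k < N ∧ k ≠ a ∧ k ≠ b := by
    intro k hk
    rw [hsdef, Finset.mem_erase, Finset.mem_erase, Finset.mem_range] at hk
    exact ⟨hk.2.2, hk.2.1, hk.1⟩
  have hbs : b ∈ (range N).erase a := by
    rw [Finset.mem_erase, Finset.mem_range]
    exact ⟨fun h => hab h.symm, hb⟩
  -- sum decompositions
  have hsplit : ∀ (f : ℕ → M), ∑ k ∈ range N, f k = f a + (f b + ∑ k ∈ s, f k) := by
    intro f
    rw [← Finset.add_sum_erase (range N) f (Finset.mem_range.2 ha),
      ← Finset.add_sum_erase _ f hbs]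
  have hsplitZ : ∀ (f : ℕ → ℤ), ∑ k ∈ range N, f k = f a + (f b + ∑ k ∈ s, f k) := by
    intro f
    rw [← Finset.add_sum_erase (range N) f (Finset.mem_range.2 ha),
      ← Finset.add_sum_erase _ f hbs]
  have hsplitN : ∀ (f : ℕ → ℕ), ∑ k ∈ range N, f k = f a + (f b + ∑ k ∈ s, f k) := by
    intro f
    rw [← Finset.add_sum_erase (range N) f (Finset.mem_range.2 ha),
      ← Finset.add_sum_erase _ f hbs]
  have hss : ∑ k ∈ s, h k = 0 := by
    have := hsplitZ h
    rw [hs] at this
    linarith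
  have hev : (2 : ℕ) • ev N h x = D + (2 * h a) • (x a - x b) := by
    unfold ev
    rw [hsplit (fun k => h k • x k), hD]
    simp only [smul_sub, Finset.sum_sub_distrib]
    rw [← Finset.sum_smul, ← Finset.mul_sum, hss, mul_zero, zero_smul, sub_zero]
    have hb' : h b = - h a := by linarith
    rw [hb']
    have : ∑ k ∈ s, (2 * h k) • x k = (2 : ℕ) • ∑ k ∈ s, h k • x k := by
      rw [Finset.smul_sum]
      apply Finset.sum_congr rfl
      intro k _
      rw [mul_smul]
      norm_cast
    rw [this, mul_smul, mul_smul, neg_smul]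
    simp only [smul_add]
    rw [show (2 : ℤ) • (h a • x a) = (2 : ℕ) • (h a • x a) by norm_cast,
      show (2 : ℤ) • (h a • x b) = (2 : ℕ) • (h a • x b) by norm_cast, smul_neg]
    abel
  -- step 1
  have k1 := RN_sum x ha hr har s id h (fun k hk => ⟨(hmem k hk).1, fun e => (hmem k hk).2.1 e.symm⟩)
  simp only [id] at k1
  rw [← hD] at k1
  -- step 2
  have k2 := RN_sum (x + Pi.single a D) hb hr hbr s id h
    (fun k hk => ⟨(hmem k hk).1, fun e => (hmem k hk).2.2 e.symm⟩)
  have e2 : ∑ k ∈ s, (2 * h k) • ((x + Pi.single a D : ℕ → M) (id k) -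
      (x + Pi.single a D : ℕ → M) r) = D := by
    rw [hD]
    apply Finset.sum_congr rfl
    intro k hk
    simp only [id, Pi.add_apply, Pi.single_eq_of_ne (hmem k hk).2.1,
      Pi.single_eq_of_ne (Ne.symm har), add_zero]
  rw [e2] at k2
  -- step 3
  have k3 := RN_leap (x + Pi.single a D + Pi.single b D) ha hb hab (h a)
  have e3 : (x + Pi.single a D + Pi.single b D : ℕ → M) a -
      (x + Pi.single a D + Pi.single b D : ℕ → M) b = x a - x b := by
    simp only [Pi.add_apply, Pi.single_eq_same, Pi.single_eq_of_ne hab,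
      Pi.single_eq_of_ne hab.symm, add_zero]
    abel
  rw [e3] at k3
  have k := (k1.trans k2).trans k3
  rw [hev]
  refine (?_ : RN N (2 * ∑ a ∈ s, (h a).natAbs + 2 * ∑ a ∈ s, (h a).natAbs +
    2 * (h a).natAbs) x _).mono ?_
  · convert k using 1
    rw [Pi.single_add, Pi.single_add]
    abel
  · unfold nrm
    rw [hsplitN]
    omega

end MPe50cbd
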